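import Pool.Agent.Y99.AB.Rz

/-!
# Abelian categories of motives: the bound for the ranks of the Chow groups
-/

set_option autoImplicit false
set_option linter.unusedSimpArgs false
set_option linter.unusedSectionVars false
set_option linter.style.haveILetI false

open CategoryTheory CategoryTheory.Limits AlgebraicGeometry

universe u v w

namespace Pool.Agent.Y99.AB

open Pool.Agent.Y108.Mo SmClass SmClass.Obj CycleTheory

variable {k : Type u} [Field k] {𝒱 : SmClass k}
variable {C : CycleTheory.{u, v} 𝒱} [hC : IsCycleTheory C] {T T' V W X Y Z : 𝒱.Obj}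

/-! ### Morphisms from and to the unit -/

/-- The class of a morphism from the unit. -/
noncomputable def fval {M : Motive C} (f : un C ⟶ M) : C.A ((point 𝒱).prod M.X.X) := f.f.1

/-- The class of a morphism to the unit. -/
noncomputable def tval {M : Motive C} (τ : M ⟶ un C) : C.A (M.X.X.prod (point 𝒱)) := τ.f.1

lemma clsT_eq {M : Motive C} (τ : M ⟶ un C) :
    clsT τ = C.push (fst M.X.X (point 𝒱)) (tval τ) := rfl

lemma clsF_eq {M : Motive C} (f : un C ⟶ M) :
    clsF f = C.push (fst M.X.X (point 𝒱)) (tp C (fval f)) := rfl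

lemma f_eq_pull {M : Motive C} (f : un C ⟶ M) :
    fval f = C.pull (snd (point 𝒱) M.X.X) (clsF f) := by
  have h1 : tp C (C.pull (fst M.X.X (point 𝒱)) (clsF f)) = tp C (tp C (fval f)) :=
    congrArg (tp C) (clsF_pull f)
  rw [tp_tp] at h1
  rw [← h1, tp, ← C.pull_comp]
  congr 2
  simp [sw]

theorem mono_of_ne_zero [HasKernels (Motive C)] {M : Motive C} {f : un C ⟶ M} (hf : f ≠ 0) :
    Mono f := by
  let x : C.gr M.X.X M.X.m := ⟨clsF f, clsF_mem f⟩
  have hx : x.1 ≠ 0 := fun h => hf (clsF_eq_zero h)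
  have h1 : ofClass C x = f ≫ Idempotents.Karoubi.decompId_i M := by
    apply hom_eq_of_cls
    have h2 : (f ≫ Idempotents.Karoubi.decompId_i M).f = f.f :=
      Idempotents.Karoubi.comp_p f
    rw [h2]
    exact (f_eq_pull f).symm
  have h3 : Mono (ofClass C x) := mono_of_noZeroDiv C x ((hasKernel_iff C x hx).1 inferInstance)
  have h4 : Mono (f ≫ Idempotents.Karoubi.decompId_i M) := h1 ▸ h3
  exact @mono_of_mono _ _ _ _ _ f (Idempotents.Karoubi.decompId_i M) h4

theorem epi_of_ne_zero [HasKernels (Motive C)] [HasCokernels (Motive C)] {M : Motive C}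
    {τ : M ⟶ un C} (hτ : τ ≠ 0) : Epi τ := by
  have h1 : cokernel.π τ = 0 := by
    by_contra h2
    have := mono_of_ne_zero h2
    exact hτ (zero_of_comp_mono (cokernel.π τ) (cokernel.condition τ))
  rw [Preadditive.epi_iff_cancel_zero]
  intro P g hg
  rw [← cokernel.π_desc τ g hg, h1, zero_comp]

/-- The endomorphisms of the unit are rational numbers. -/
lemma exists_rat (g : C.A (point 𝒱)) : ∃ q : ℚ, g = q • (1 : C.A (point 𝒱)) := hC.point_span g

lemma clsT_comp_un {M : Motive C} (τ : M ⟶ un C) (c : un C ⟶ un C) :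
    ∃ q : ℚ, clsT (τ ≫ c) = q • clsT τ := by
  obtain ⟨q, hq⟩ := exists_rat (clsT c)
  refine ⟨q, ?_⟩
  have h1 : clsT (τ ≫ c) = C.ctr (clsT c) (tval τ) := clsT_comp τ c
  rw [h1, clsT_eq τ, show C.ctr (clsT c) (tval τ) = C.ctr (q • (1 : C.A (point 𝒱))) (tval τ) from
    congrArg (fun z => C.ctr z (tval τ)) hq, ctr, map_smul, map_one, mul_smul_comm, mul_one,
    map_smul]

lemma clsF_un_comp {M : Motive C} (f : un C ⟶ M) (c : un C ⟶ un C) :
    ∃ q : ℚ, clsF (c ≫ f) = q • clsF f := by
  obtain ⟨q, hq⟩ := exists_rat (clsF c)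
  refine ⟨q, ?_⟩
  have h1 : clsF (c ≫ f) = C.ctr (clsF c) (tp C (fval f)) := clsF_comp c f
  rw [h1, clsF_eq f, show C.ctr (clsF c) (tp C (fval f)) =
    C.ctr (q • (1 : C.A (point 𝒱))) (tp C (fval f)) from
    congrArg (fun z => C.ctr z (tp C (fval f))) hq, ctr, map_smul, map_one, mul_smul_comm,
    mul_one, map_smul]

section abel

variable (hab : IsAbelianCat (Motive C))

include hab

/-- A morphism to the unit which vanishes on the kernel of `τ` is a multiple of `τ`. -/
lemma clsT_prop {M : Motive C} {τ σ : M ⟶ un C} (hτ : τ ≠ 0)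
    (h : haveI := hab.kernels; kernel.ι τ ≫ σ = 0) : ∃ q : ℚ, clsT σ = q • clsT τ := by
  haveI := hab.kernels
  haveI := hab.cokernels
  haveI := epi_of_ne_zero hτ
  have h1 : cokernel.π τ = 0 := by
    have h2 : τ ≫ cokernel.π τ = 0 := cokernel.condition τ
    exact zero_of_epi_comp τ h2
  haveI := hab.iso τ
  -- the image is the unit
  haveI h3 : IsIso (Abelian.image.ι τ) := by
    have h4 : 𝟙 (un C) ≫ cokernel.π τ = 0 := by rw [h1, comp_zero]
    refine ⟨kernel.lift (cokernel.π τ) (𝟙 _) h4, ?_, ?_⟩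
    · apply (cancel_mono (kernel.ι (cokernel.π τ))).1
      rw [Category.assoc, kernel.lift_ι, Category.comp_id, Category.id_comp]
    · exact kernel.lift_ι _ _ _
  have h5 : Abelian.coimage.π τ ≫ Abelian.coimageImageComparison τ ≫ Abelian.image.ι τ = τ :=
    Abelian.coimage_image_factorisation τ
  have h6 : Abelian.coimage.π τ ≫ cokernel.desc (kernel.ι τ) σ h = σ := cokernel.π_desc _ _ _
  have h8 : τ ≫ inv (Abelian.coimageImageComparison τ ≫ Abelian.image.ι τ) =
      Abelian.coimage.π τ := by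
    rw [IsIso.comp_inv_eq, h5]
  have h7 : σ = τ ≫ (inv (Abelian.coimageImageComparison τ ≫ Abelian.image.ι τ) ≫
      cokernel.desc (kernel.ι τ) σ h) := by
    rw [← Category.assoc, h8, h6]
  rw [h7]
  exact clsT_comp_un τ _

/-- A morphism from the unit which vanishes modulo the image of `f` is a multiple of `f`. -/
lemma clsF_prop {M : Motive C} {f g : un C ⟶ M} (hf : f ≠ 0)
    (h : haveI := hab.cokernels; g ≫ cokernel.π f = 0) : ∃ q : ℚ, clsF g = q • clsF f := by
  haveI := hab.kernels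
  haveI := hab.cokernels
  haveI := mono_of_ne_zero hf
  have h1 : kernel.ι f = 0 := zero_of_comp_mono f (kernel.condition f)
  haveI := hab.iso f
  haveI h3 : IsIso (Abelian.coimage.π f) := by
    have h4 : kernel.ι f ≫ 𝟙 (un C) = 0 := by rw [h1, zero_comp]
    refine ⟨cokernel.desc (kernel.ι f) (𝟙 _) h4, ?_, ?_⟩
    · exact cokernel.π_desc _ _ _
    · apply (cancel_epi (cokernel.π (kernel.ι f))).1
      rw [← Category.assoc, cokernel.π_desc, Category.comp_id, Category.id_comp]
  have h5 : Abelian.coimage.π f ≫ Abelian.coimageImageComparison f ≫ Abelian.image.ι f = f :=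
    Abelian.coimage_image_factorisation f
  have h6 : kernel.lift (cokernel.π f) g h ≫ Abelian.image.ι f = g := kernel.lift_ι _ _ _
  have h8 : inv (Abelian.coimage.π f ≫ Abelian.coimageImageComparison f) ≫ f =
      Abelian.image.ι f := by
    rw [IsIso.inv_comp_eq, Category.assoc, h5]
  have h7 : g = (kernel.lift (cokernel.π f) g h ≫
      inv (Abelian.coimage.π f ≫ Abelian.coimageImageComparison f)) ≫ f := by
    rw [Category.assoc, h8, h6]
  rw [h7]
  exact clsF_un_comp f _

end abel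

/-! ### The spaces of morphisms as spaces of classes -/

/-- Contraction as a linear map. -/
noncomputable def ctrL (g : C.A (T.prod Z)) : C.A Z →ₗ[ℚ] C.A T :=
  C.push (fst T Z) ∘ₗ LinearMap.mulLeft ℚ g ∘ₗ (C.pull (snd T Z)).toLinearMap

lemma ctrL_apply (g : C.A (T.prod Z)) (I : C.A Z) : ctrL g I = C.ctr I g := rfl

/-- The classes of the morphisms from `M` to the unit. -/
noncomputable def toU (M : Motive C) : Submodule ℚ (C.A M.X.X) where
  carrier := {y | y ∈ C.gr M.X.X (M.X.X.dim - M.X.m) ∧ ctrL M.p.1 y = y}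
  zero_mem' := ⟨Submodule.zero_mem _, map_zero _⟩
  add_mem' := fun ha hb => ⟨Submodule.add_mem _ ha.1 hb.1, by rw [map_add, ha.2, hb.2]⟩
  smul_mem' := fun c a ha => ⟨Submodule.smul_mem _ c ha.1, by rw [map_smul, ha.2]⟩

/-- The classes of the morphisms from the unit to `M`. -/
noncomputable def frU (M : Motive C) : Submodule ℚ (C.A M.X.X) where
  carrier := {y | y ∈ C.gr M.X.X M.X.m ∧ ctrL (tp C M.p.1) y = y}
  zero_mem' := ⟨Submodule.zero_mem _, map_zero _⟩
  add_mem' := fun ha hb => ⟨Submodule.add_mem _ ha.1 hb.1, by rw [map_add, ha.2, hb.2]⟩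
  smul_mem' := fun c a ha => ⟨Submodule.smul_mem _ c ha.1, by rw [map_smul, ha.2]⟩

lemma clsT_mem_toU {M : Motive C} (τ : M ⟶ un C) : clsT τ ∈ toU M := ⟨clsT_mem τ, clsT_ctr τ⟩

lemma clsF_mem_frU {M : Motive C} (f : un C ⟶ M) : clsF f ∈ frU M := ⟨clsF_mem f, clsF_ctr f⟩

lemma exists_homT {M : Motive C} {y : C.A M.X.X} (hy : y ∈ toU M) : ∃ τ : M ⟶ un C, clsT τ = y := by
  refine ⟨mkHom' (l := 0) (T := point 𝒱) (C.pull (fst M.X.X (point 𝒱)) y)
    (mem_congr C (C.pull_mem _ hy.1) (by ring)) ?_, ?_⟩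
  · rw [C.comp_pull_fst]
    exact congrArg _ hy.2
  · exact C.push_pull_fst_point y

lemma exists_homF {M : Motive C} {x : C.A M.X.X} (hx : x ∈ frU M) : ∃ f : un C ⟶ M, clsF f = x := by
  refine ⟨mkHom (l := 0) (T := point 𝒱) (tp C (C.pull (fst M.X.X (point 𝒱)) x))
    (mem_congr C (tp_mem (C.pull_mem _ hx.1)) (by rw [dim_point]; push_cast; ring)) ?_, ?_⟩
  · apply tp_inj
    rw [tp_comp, tp_tp, C.comp_pull_fst]
    exact congrArg _ hx.2
  · change C.push (fst M.X.X (point 𝒱)) (tp C (tp C (C.pull (fst M.X.X (point 𝒱)) x))) = x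
    rw [tp_tp]
    exact C.push_pull_fst_point x

/-- The composition of a morphism from the unit and a morphism to the unit. -/
lemma comp_eq_zero_iff {M : Motive C} (f : un C ⟶ M) (τ : M ⟶ un C) :
    f ≫ τ = 0 ↔ dg C (clsF f * clsT τ) = 0 := by
  have h1 : clsT (f ≫ τ) = dg C (clsF f * clsT τ) • (1 : C.A (point 𝒱)) := by
    have h0 : clsT (f ≫ τ) = C.ctr (clsT τ) (fval f) := clsT_comp f τ
    rw [h0, ctr, f_eq_pull, ← map_mul, push_snd_dg]
  constructor
  · intro h
    have h2 : clsT (f ≫ τ) = 0 := by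
      rw [h]
      exact map_zero (C.push (fst (point 𝒱) (point 𝒱)))
    rw [h1] at h2
    exact (smul_eq_zero.1 h2).resolve_right hC.one_ne_zero
  · intro h
    apply clsT_eq_zero
    rw [h1, h, zero_smul]
    rfl

end Pool.Agent.Y99.AB
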