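import Pool.Agent.Y99.AB.Ab

/-!
# The bound for the ranks of the Chow groups
-/

set_option autoImplicit false
set_option linter.unusedSimpArgs false
set_option linter.unusedSectionVars false
set_option linter.style.haveILetI false

open CategoryTheory CategoryTheory.Limits AlgebraicGeometry

universe u v w

namespace Pool.Agent.Y99.AB

open Pool.Agent.Y108.Mo SmClass SmClass.Obj CycleTheory
open Module

/-- The image of a space under a map which is injective modulo one vector. -/
lemma finrank_map_ge {E E' : Type*} [AddCommGroup E] [Module ℚ E] [AddCommGroup E'] [Module ℚ E']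
    (φ : E →ₗ[ℚ] E') (L : Submodule ℚ E) [FiniteDimensional ℚ L] {x : E} (hx : x ∈ L)
    (h : ∀ y ∈ L, φ y = 0 → ∃ q : ℚ, y = q • x) :
    finrank ℚ L ≤ finrank ℚ (L.map φ) + 1 := by
  have h1 := (φ.domRestrict L).finrank_range_add_finrank_ker
  have h2 : LinearMap.range (φ.domRestrict L) = L.map φ := LinearMap.range_domRestrict L φ
  have h3 : finrank ℚ (LinearMap.ker (φ.domRestrict L)) ≤ 1 := by
    by_cases hx0 : φ x = 0
    · refine finrank_le_one ⟨⟨x, hx⟩, hx0⟩ ?_
      rintro ⟨⟨y, hy⟩, hy0⟩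
      obtain ⟨q, hq⟩ := h y hy hy0
      refine ⟨q, ?_⟩
      apply Subtype.ext
      apply Subtype.ext
      exact hq.symm
    · have h4 : LinearMap.ker (φ.domRestrict L) = ⊥ := by
        rw [eq_bot_iff]
        rintro ⟨y, hy⟩ hy0
        obtain ⟨q, hq⟩ := h y hy hy0
        have h5 : φ y = 0 := hy0
        rw [hq, map_smul] at h5
        have h6 : q = 0 := (smul_eq_zero.1 h5).resolve_right hx0
        rw [Submodule.mem_bot]
        apply Subtype.ext
        change y = 0
        rw [hq, h6, zero_smul]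
      rw [h4, finrank_bot]
      omega
  rw [h2] at h1
  omega

variable {k : Type u} [Field k] {𝒱 : SmClass k}
variable {C : CycleTheory.{u, v} 𝒱} [hC : IsCycleTheory C] {T T' V W X Y Z : 𝒱.Obj}
variable {K : Type w} [Field K] [CharZero K] {R : Realization C K} (hR : IsRealization R)
  {q : ℕ} {Φ : Frob C q} (hRH : Riemann R Φ) (hq : q ≠ 0) (hab : IsAbelianCat (Motive C))

include hR hRH hq hab

theorem bound_from : ∀ (r : ℕ) (M : Motive C) (L : Submodule ℚ (C.A M.X.X)), L ≤ frU M →
    FiniteDimensional ℚ L → r ≤ finrank ℚ L → r ≤ multM R Φ M := by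
  intro r
  induction r with
  | zero => intro M L _ _ _; exact Nat.zero_le _
  | succ r ih =>
    intro M L hL hfd hr
    haveI := hab.cokernels
    have hne : L ≠ ⊥ := by
      rintro rfl
      rw [finrank_bot] at hr
      omega
    obtain ⟨x, hx, hx0⟩ := Submodule.exists_mem_ne_zero_of_ne_bot hne
    obtain ⟨f, hf⟩ := exists_homF (hL hx)
    have hf0 : f ≠ 0 := by
      rintro rfl
      apply hx0
      rw [← hf]
      change C.push _ (tp C (0 : C.A _)) = 0
      rw [tp_zero, map_zero]
    set φ := ctrL (C := C) (tp C (cokernel.π f).f.1) with hφ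
    have hφg : ∀ g : un C ⟶ M, φ (clsF g) = clsF (g ≫ cokernel.π f) := fun g =>
      (clsF_comp g (cokernel.π f)).symm
    have h1 : L.map φ ≤ frU (cokernel f) := by
      rintro _ ⟨y, hy, rfl⟩
      obtain ⟨g, rfl⟩ := exists_homF (hL hy)
      rw [hφg]
      exact clsF_mem_frU _
    have h2 : finrank ℚ L ≤ finrank ℚ (L.map φ) + 1 := by
      refine finrank_map_ge φ L hx fun y hy hy0 => ?_
      obtain ⟨g, rfl⟩ := exists_homF (hL hy)
      rw [hφg] at hy0
      rw [← hf]
      exact clsF_prop hab hf0 (clsF_eq_zero hy0)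
    have h3 := ih (cokernel f) (L.map φ) h1 inferInstance (by omega)
    have h4 := multM_cokernel hR hRH hq hf0
    omega

theorem bound_both : ∀ (r : ℕ) (M : Motive C) (L L' : Submodule ℚ (C.A M.X.X)), L ≤ toU M →
    L' ≤ frU M → FiniteDimensional ℚ L → FiniteDimensional ℚ L' →
    (∀ x ∈ L', ∀ y ∈ L, dg C (x * y) = 0) → r ≤ finrank ℚ L →
    r + finrank ℚ L' ≤ multM R Φ M := by
  intro r
  induction r with
  | zero =>
    intro M L L' _ hL' _ hfd' _ _
    rw [zero_add]
    exact bound_from hR hRH hq hab _ M L' hL' hfd' le_rfl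
  | succ r ih =>
    intro M L L' hL hL' hfd hfd' hort hr
    haveI := hab.kernels
    have hne : L ≠ ⊥ := by
      rintro rfl
      rw [finrank_bot] at hr
      omega
    obtain ⟨x, hx, hx0⟩ := Submodule.exists_mem_ne_zero_of_ne_bot hne
    obtain ⟨τ, hτ⟩ := exists_homT (hL hx)
    have hτ0 : τ ≠ 0 := by
      rintro rfl
      apply hx0
      rw [← hτ]
      change C.push _ (0 : C.A _) = 0
      rw [map_zero]
    set φ := ctrL (C := C) (kernel.ι τ).f.1 with hφ
    set ψ := ctrL (C := C) (tp C (kernel.ι τ).f.1) with hψ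
    have hφg : ∀ g : M ⟶ un C, φ (clsT g) = clsT (kernel.ι τ ≫ g) := fun g =>
      (clsT_comp (kernel.ι τ) g).symm
    have hψg : ∀ g : un C ⟶ kernel τ, ψ (clsF g) = clsF (g ≫ kernel.ι τ) := fun g =>
      (clsF_comp g (kernel.ι τ)).symm
    have h1 : L.map φ ≤ toU (kernel τ) := by
      rintro _ ⟨y, hy, rfl⟩
      obtain ⟨g, rfl⟩ := exists_homT (hL hy)
      rw [hφg]
      exact clsT_mem_toU _
    have h2 : finrank ℚ L ≤ finrank ℚ (L.map φ) + 1 := by
      refine finrank_map_ge φ L hx fun y hy hy0 => ?_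
      obtain ⟨g, rfl⟩ := exists_homT (hL hy)
      rw [hφg] at hy0
      rw [← hτ]
      exact clsT_prop hab hτ0 (clsT_eq_zero hy0)
    -- the orthogonal classes lift to the kernel
    set L₁ : Submodule ℚ (C.A (kernel τ).X.X) := frU (kernel τ) ⊓ L'.comap ψ with hL₁
    have hinj : ∀ z ∈ L₁, ψ z = 0 → z = 0 := by
      intro z hz hz0
      obtain ⟨g, rfl⟩ := exists_homF hz.1
      rw [hψg] at hz0
      have h3 : g = 0 := zero_of_comp_mono (kernel.ι τ) (clsF_eq_zero hz0)
      rw [h3]
      change C.push _ (tp C (0 : C.A _)) = 0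
      rw [tp_zero, map_zero]
    let ρ : L₁ →ₗ[ℚ] L' := (ψ.domRestrict L₁).codRestrict L' fun z => z.2.2
    have hρ : Function.Injective ρ := by
      rw [injective_iff_map_eq_zero]
      intro z hz
      apply Subtype.ext
      exact hinj z.1 z.2 (congrArg Subtype.val hz)
    haveI hfd₁ : FiniteDimensional ℚ L₁ := FiniteDimensional.of_injective ρ hρ
    have hsur : Function.Surjective ρ := by
      rintro ⟨y, hy⟩
      obtain ⟨g, hg⟩ := exists_homF (hL' hy)
      have h3 : g ≫ τ = 0 := by
        rw [comp_eq_zero_iff, hg, hτ]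
        exact hort y hy x hx
      have h4 : ψ (clsF (kernel.lift τ g h3)) = y := by
        rw [hψg, kernel.lift_ι, hg]
      refine ⟨⟨clsF (kernel.lift τ g h3), clsF_mem_frU _, ?_⟩, Subtype.ext h4⟩
      rw [SetLike.mem_coe, Submodule.mem_comap, h4]
      exact hy
    have h5 : finrank ℚ L₁ = finrank ℚ L' :=
      LinearEquiv.finrank_eq (LinearEquiv.ofBijective ρ ⟨hρ, hsur⟩)
    have h6 := ih (kernel τ) (L.map φ) L₁ h1 inf_le_left inferInstance hfd₁ (by
      rintro z hz _ ⟨y, hy, rfl⟩
      obtain ⟨g, rfl⟩ := exists_homF hz.1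
      obtain ⟨σ, rfl⟩ := exists_homT (hL hy)
      rw [hφg, ← comp_eq_zero_iff, ← Category.assoc, comp_eq_zero_iff, ← hψg]
      exact hort _ hz.2 _ hy) (by omega)
    have h7 := multM_kernel hR hRH hq hτ0
    omega

omit hR hRH hq hab in
lemma ctr_diag (y : C.A X) : C.ctr y (C.diag X) = y := by
  apply C.pull_fst_point_injective
  rw [← C.comp_pull_fst, C.diag_comp]

omit hR hRH hq hab in
lemma tp_diag : tp C (C.diag X) = C.diag X := by
  rw [tp, C.diag_def, C.pull_iso (sw X X) (sw X X) sw_sw sw_sw, ← C.push_comp]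
  congr 2
  apply prod_ext <;> simp [sw, comp_lift]

omit hR hRH hq hab in
lemma mem_toU {i : ℤ} {y : C.A X} (hy : y ∈ C.gr X (X.dim - i)) : y ∈ toU (motive C X i) :=
  ⟨hy, ctr_diag y⟩

omit hR hRH hq hab in
lemma mem_frU {i : ℤ} {y : C.A X} (hy : y ∈ C.gr X i) : y ∈ frU (motive C X i) := by
  refine ⟨hy, ?_⟩
  change C.ctr y (tp C (C.diag X)) = y
  rw [tp_diag, ctr_diag]

theorem finite_gr (X : 𝒱.Obj) (i : ℤ) : Module.Finite ℚ (C.gr X i) := by
  have h1 : Module.rank ℚ (C.gr X i) ≤ (multM R Φ (motive C X i) : Cardinal) := by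
    refine rank_le fun s hs => ?_
    have h2 : LinearIndependent ℚ (fun y : s => ((y : C.gr X i) : C.A X)) :=
      hs.map' (C.gr X i).subtype (Submodule.ker_subtype _)
    set L : Submodule ℚ (C.A X) := Submodule.span ℚ (Set.range fun y : s => ((y : C.gr X i) : C.A X))
      with hL
    have h3 : finrank ℚ L = s.card := by
      rw [hL, finrank_span_eq_card h2, Fintype.card_coe]
    have hfd : FiniteDimensional ℚ L := FiniteDimensional.span_of_finite ℚ (Set.finite_range _)
    have h4 : L ≤ frU (motive C X i) := by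
      rw [hL, Submodule.span_le]
      rintro _ ⟨y, rfl⟩
      exact mem_frU (y : C.gr X i).2
    exact bound_from hR hRH hq hab s.card (motive C X i) L h4 hfd h3.ge
  rw [← Module.rank_lt_aleph0_iff]
  exact h1.trans_lt (Cardinal.natCast_lt_aleph0)

omit hR hRH hq hab in
lemma mem_numTrivial {i : ℤ} {x : C.A X} : x ∈ numTrivial C X i ↔
    x ∈ C.gr X i ∧ ∀ y ∈ C.gr X (X.dim - i), dg C (x * y) = 0 := by
  refine and_congr Iff.rfl (forall_congr' fun y => imp_congr Iff.rfl ?_)
  change C.push (Obj.toPoint X) (x * y) = 0 ↔ _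
  constructor
  · intro h
    apply dg_unique
    rw [h, zero_smul]
  · intro h
    rw [dg_spec, h, zero_smul]

/-- **The bound.** -/
theorem bound (X : 𝒱.Obj) (i : ℤ) :
    finrank ℚ (C.gr X (X.dim - i)) + finrank ℚ (numTrivial C X i) ≤ mult R Φ X i := by
  have hf1 := finite_gr hR hRH hq hab X (X.dim - i)
  haveI := finite_gr hR hRH hq hab X i
  have h0 : numTrivial C X i ≤ C.gr X i := fun x hx => (mem_numTrivial.1 hx).1
  have hf2 : FiniteDimensional ℚ (numTrivial C X i) :=
    FiniteDimensional.of_injective (Submodule.inclusion h0) (Submodule.inclusion_injective h0)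
  rw [← multM_motive hR hq]
  exact bound_both hR hRH hq hab _ (motive C X i) (C.gr X (X.dim - i)) (numTrivial C X i)
    (fun y hy => mem_toU hy) (fun x hx => mem_frU (h0 hx)) hf1 hf2
    (fun x hx y hy => (mem_numTrivial.1 hx).2 y hy) le_rfl

end Pool.Agent.Y99.AB
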