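import Pool.Agent.Y108.Mo.Cat

/-!
# Frobenius endomorphisms, realizations, abelian categories: definitions
-/

set_option autoImplicit false

open CategoryTheory CategoryTheory.Limits AlgebraicGeometry

universe u v w

namespace Pool.Agent.Y99.AB

open Pool.Agent.Y108.Mo SmClass SmClass.Obj CycleTheory

/-- Every morphism has a kernel and a cokernel, and the canonical map from the coimage to the image
is an isomorphism. -/
structure IsAbelianCat (D : Type*) [Category D] [Preadditive D] : Prop where
  kernels : HasKernels D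
  cokernels : HasCokernels D
  iso : ∀ {X Y : D} (f : X ⟶ Y), IsIso (Abelian.coimageImageComparison f)

variable {k : Type u} [Field k] {𝒱 : SmClass k}

/-- Endomorphisms `F X` of all members of the class with the formal properties of the Frobenius
endomorphisms of schemes over a field with `q` elements: they are functorial, `F X` multiplies the
classes of codimension `i` by `q ^ i` and has the degree `q ^ dim X`. -/
structure Frob (C : CycleTheory.{u, v} 𝒱) (q : ℕ) where
  /-- the Frobenius endomorphism -/
  F : ∀ X : 𝒱.Obj, X ⟶ X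
  nat : ∀ {X Y : 𝒱.Obj} (f : X ⟶ Y), F X ≫ f = f ≫ F Y
  pull : ∀ {X : 𝒱.Obj} {i : ℤ} {a : C.A X}, C.Mem i a → C.pb (F X) a = (q : ℚ) ^ i • a
  push_one : ∀ X : 𝒱.Obj, C.pf (F X) (C.one X) = (q : ℚ) ^ X.dim • C.one X

/-- The transpose of the graph of an endomorphism; it acts on the cohomology as the pull-back. -/
noncomputable def graphT (C : CycleTheory.{u, v} 𝒱) {X : 𝒱.Obj} (f : X ⟶ X) : C.A (X.prod X) :=
  C.pb (sw X X) (C.pf (Obj.lift (𝟙 X) f) (C.one X))

/-- The data of a realization: graded finite-dimensional vector spaces `H(X)` over `K`, on which the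
correspondences act, and the operator `(-1) ^ j` on `H^j(X)`. -/
structure Realization (C : CycleTheory.{u, v} 𝒱) (K : Type w) [Field K] where
  /-- the cohomology -/
  H : 𝒱.Obj → Type w
  [acg : ∀ X, AddCommGroup (H X)]
  [mod : ∀ X, Module K (H X)]
  /-- the grading: `gr X j` is `H^j(X)` -/
  gr : ∀ X, ℤ → Submodule K (H X)
  /-- the action of correspondences -/
  act : ∀ {X Y : 𝒱.Obj}, C.A (X.prod Y) → (H X →ₗ[K] H Y)
  /-- the sign operator -/
  sgn : ∀ X, Module.End K (H X)

attribute [instance] Realization.acg Realization.mod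

/-- `H(X)` is a finite-dimensional graded vector space; a correspondence of degree `r` maps
`H^j(X)` to `H^(j + 2 r)(Y)`; the sign operator is `(-1) ^ j` on `H^j(X)`. -/
structure IsGradedRealization {C : CycleTheory.{u, v} 𝒱} {K : Type w} [Field K]
    (R : Realization C K) : Prop where
  finite : ∀ X, Module.Finite K (R.H X)
  internal : ∀ X, DirectSum.IsInternal (R.gr X)
  act_mem : ∀ {X Y : 𝒱.Obj} {r j : ℤ} {a : C.A (X.prod Y)} {v : R.H X}, C.Mem (X.dim + r) a →
    v ∈ R.gr X j → R.act a v ∈ R.gr Y (j + 2 * r)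
  sgn_apply : ∀ {X : 𝒱.Obj} {j : ℤ} {v : R.H X}, v ∈ R.gr X j → R.sgn X v = (-1 : K) ^ j • v

/-- The action of correspondences is linear and compatible with composition. -/
structure IsFunctorialRealization {C : CycleTheory.{u, v} 𝒱} {K : Type w} [Field K]
    (R : Realization C K) : Prop where
  act_add : ∀ {X Y : 𝒱.Obj} (a b : C.A (X.prod Y)), R.act (a + b) = R.act a + R.act b
  act_smul : ∀ {X Y : 𝒱.Obj} (c : ℚ) (a : C.A (X.prod Y)), R.act (c • a) = (c : K) • R.act a
  act_diag : ∀ X : 𝒱.Obj, R.act (C.diag X) = LinearMap.id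
  act_comp : ∀ {X Y Z : 𝒱.Obj} (a : C.A (X.prod Y)) (b : C.A (Y.prod Z)),
    R.act (C.comp a b) = R.act b ∘ₗ R.act a

/-- The class `a` on `X × X` has the intersection number `c` with the diagonal. -/
def HasTrace (C : CycleTheory.{u, v} 𝒱) {X : 𝒱.Obj} (a : C.A (X.prod X)) (c : ℚ) : Prop :=
  C.pf (Obj.toPoint X) (C.pb (Obj.lift (𝟙 X) (𝟙 X)) a) = c • C.one (point 𝒱)

/-- The Lefschetz trace formula: the intersection number of a correspondence of degree zero with the
diagonal is the alternating sum of its traces on the `H^j(X)`. -/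
def LefschetzFormula {C : CycleTheory.{u, v} 𝒱} {K : Type w} [Field K]
    (R : Realization C K) : Prop :=
  ∀ {X : 𝒱.Obj} {a : C.A (X.prod X)} {c : ℚ}, C.Mem X.dim a → HasTrace C a c →
    LinearMap.trace K (R.H X) (R.sgn X ∘ₗ R.act a) = (c : K)

/-- The formal properties of the action of correspondences on a Weil cohomology theory: finite
dimension, grading, functoriality, Lefschetz trace formula. -/
structure IsRealization {C : CycleTheory.{u, v} 𝒱} {K : Type w} [Field K]
    (R : Realization C K) : Prop extends IsGradedRealization R, IsFunctorialRealization R where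
  trace : LefschetzFormula R

section

variable {C : CycleTheory.{u, v} 𝒱} {K : Type w} [Field K] (R : Realization C K) {q : ℕ}
  (Φ : Frob C q)

/-- The action of the Frobenius endomorphism on the cohomology of `X`. -/
noncomputable def frobH (X : 𝒱.Obj) : Module.End K (R.H X) := R.act (graphT C (Φ.F X))

/-- The Riemann hypothesis (the part of it on powers of `q`): `q ^ i` is not an eigenvalue of the
Frobenius endomorphism on `H^j(X)` if `j ≠ 2 i`. -/
def Riemann : Prop := ∀ (X : 𝒱.Obj) (i j : ℤ) (v : R.H X), v ∈ R.gr X j → v ≠ 0 →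
  frobH R Φ X v = (q : K) ^ i • v → j = 2 * i

/-- The multiplicity of `q ^ i` as an eigenvalue of the Frobenius endomorphism (the dimension of
the generalized eigenspace) on the cohomology of `X`. -/
noncomputable def mult (X : 𝒱.Obj) (i : ℤ) : ℕ :=
  Module.finrank K ((frobH R Φ X).maxGenEigenspace ((q : K) ^ i))

end

/-- The class `x` has codimension `i` and its intersection number with all classes of complementary
codimension is zero. -/
def IsNumTrivial (C : CycleTheory.{u, v} 𝒱) (X : 𝒱.Obj) (i : ℤ) (x : C.A X) : Prop :=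
  C.Mem i x ∧ ∀ y : C.A X, C.Mem (X.dim - i) y → C.pf (Obj.toPoint X) (C.mul x y) = 0

lemma isNumTrivial_zero (C : CycleTheory.{u, v} 𝒱) (X : 𝒱.Obj) (i : ℤ) :
    IsNumTrivial C X i 0 := ⟨(C.gr X i).zero_mem, fun y _ => by
    change C.push _ ((0 : C.A X) * y) = 0
    rw [zero_mul, map_zero]⟩

lemma IsNumTrivial.add {C : CycleTheory.{u, v} 𝒱} {X : 𝒱.Obj} {i : ℤ} {a b : C.A X}
    (ha : IsNumTrivial C X i a) (hb : IsNumTrivial C X i b) : IsNumTrivial C X i (a + b) := by
  refine ⟨(C.gr X i).add_mem ha.1 hb.1, fun y hy => ?_⟩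
  change C.push _ ((a + b) * y) = 0
  rw [add_mul, map_add]
  have h1 : C.push (Obj.toPoint X) (a * y) = 0 := ha.2 y hy
  have h2 : C.push (Obj.toPoint X) (b * y) = 0 := hb.2 y hy
  rw [h1, h2, add_zero]

lemma IsNumTrivial.smul {C : CycleTheory.{u, v} 𝒱} {X : 𝒱.Obj} {i : ℤ} {a : C.A X} (c : ℚ)
    (ha : IsNumTrivial C X i a) : IsNumTrivial C X i (c • a) := by
  refine ⟨(C.gr X i).smul_mem c ha.1, fun y hy => ?_⟩
  change C.push _ ((c • a) * y) = 0
  rw [smul_mul_assoc, map_smul]
  have h1 : C.push (Obj.toPoint X) (a * y) = 0 := ha.2 y hy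
  rw [h1, smul_zero]

/-- The space of the numerically trivial classes of codimension `i`. -/
def numTrivial (C : CycleTheory.{u, v} 𝒱) (X : 𝒱.Obj) (i : ℤ) : Submodule ℚ (C.A X) where
  carrier := {x | IsNumTrivial C X i x}
  zero_mem' := isNumTrivial_zero C X i
  add_mem' := IsNumTrivial.add
  smul_mem' := fun c _ h => IsNumTrivial.smul c h

/-- The iterates `f ∘ f ∘ … ∘ f` of a self-correspondence, beginning with the diagonal. -/
noncomputable def cpow (C : CycleTheory.{u, v} 𝒱) {X : 𝒱.Obj} (f : C.A (X.prod X)) :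
    ℕ → C.A (X.prod X)
  | 0 => C.diag X
  | n + 1 => C.comp f (cpow C f n)

/-- The rank of `C^(d - i)(X)`, `d = dim X`, plus the rank of the group of the numerically trivial
classes in `C^i(X)` is finite and at most the multiplicity of the eigenvalue `q ^ i` of the Frobenius
endomorphism, for all `X` and `i`. -/
def RankBound {C : CycleTheory.{u, v} 𝒱} {K : Type w} [Field K] (R : Realization C K) {q : ℕ}
    (Φ : Frob C q) : Prop :=
  ∀ (X : 𝒱.Obj) (i : ℤ), Module.Finite ℚ (C.gr X i) ∧
    Module.finrank ℚ (C.gr X (X.dim - i)) + Module.finrank ℚ (numTrivial C X i) ≤ mult R Φ X i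

/-- The numerically trivial self-correspondences of degree zero are nilpotent. -/
def NumNilpotent (C : CycleTheory.{u, v} 𝒱) : Prop :=
  ∀ (X : 𝒱.Obj) (f : C.A (X.prod X)), IsNumTrivial C (X.prod X) X.dim f → ∃ n, cpow C f n = 0

end Pool.Agent.Y99.AB
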