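import Pool.Agent.Y99.AB.Tk
import Pool.Agent.Y108.Mo.Ker

/-!
# Kernels and cokernels of morphisms between motives and the unit: the traces
-/

set_option autoImplicit false
set_option linter.unusedSimpArgs false
set_option linter.unusedSectionVars false

open CategoryTheory CategoryTheory.Limits AlgebraicGeometry

universe u v

namespace Pool.Agent.Y99.AB

open Pool.Agent.Y108.Mo SmClass SmClass.Obj CycleTheory

variable {k : Type u} [Field k] {𝒱 : SmClass k}
variable (C : CycleTheory.{u, v} 𝒱) [hC : IsCycleTheory C] {T T' V W X Y Z : 𝒱.Obj}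

/-- The unit motive. -/
noncomputable abbrev un : Motive C := motive C (point 𝒱) 0

variable {C}

/-- A class on `T × X` fixed by `p` as a morphism of motives. -/
noncomputable def mkHom {M : Motive C} {l : ℤ} (w : C.A (T.prod M.X.X))
    (hw : w ∈ C.gr _ (T.dim + (M.X.m - l))) (hp : C.comp w M.p.1 = w) : motive C T l ⟶ M :=
  ⟨(⟨w, hw⟩ : (⟨T, l⟩ : Twisted C) ⟶ M.X), by
    change 𝟙 _ ≫ _ ≫ _ = _
    rw [Category.id_comp]
    exact hom_ext' hp⟩

lemma mkHom_f {M : Motive C} {l : ℤ} (w : C.A (T.prod M.X.X))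
    (hw : w ∈ C.gr _ (T.dim + (M.X.m - l))) (hp : C.comp w M.p.1 = w) :
    (mkHom w hw hp).f.1 = w := rfl

/-- A class on `X × T` fixed by `p` as a morphism of motives. -/
noncomputable def mkHom' {M : Motive C} {l : ℤ} (w : C.A (M.X.X.prod T))
    (hw : w ∈ C.gr _ (M.X.X.dim + (l - M.X.m))) (hp : C.comp M.p.1 w = w) : M ⟶ motive C T l :=
  ⟨(⟨w, hw⟩ : M.X ⟶ (⟨T, l⟩ : Twisted C)), by
    change _ ≫ _ ≫ 𝟙 _ = _
    rw [Category.comp_id]
    exact hom_ext' hp⟩

lemma mkHom'_f {M : Motive C} {l : ℤ} (w : C.A (M.X.X.prod T))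
    (hw : w ∈ C.gr _ (M.X.X.dim + (l - M.X.m))) (hp : C.comp M.p.1 w = w) :
    (mkHom' w hw hp).f.1 = w := rfl

lemma hom_eq_of_cls {M N : Motive C} {f g : M ⟶ N} (h : f.f.1 = g.f.1) : f = g := by
  apply Idempotents.Karoubi.hom_ext
  exact hom_ext' h

/-- The class on `X` of a morphism from `(X, m, p)` to the unit. -/
noncomputable def clsT {M : Motive C} (τ : M ⟶ un C) : C.A M.X.X :=
  C.push (fst M.X.X (point 𝒱)) τ.f.1

lemma clsT_pull {M : Motive C} (τ : M ⟶ un C) :
    C.pull (fst M.X.X (point 𝒱)) (clsT τ) = τ.f.1 := C.pull_push_fst_point _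

lemma clsT_mem {M : Motive C} (τ : M ⟶ un C) : clsT τ ∈ C.gr _ (M.X.X.dim - M.X.m) := by
  have h1 := C.push_mem (fst M.X.X (point 𝒱)) τ.f.2
  have h2 : (M.X.X.dim : ℤ) + (0 - M.X.m) + ((M.X.X.dim : ℤ) - (M.X.X.prod (point 𝒱)).dim) =
      M.X.X.dim - M.X.m := by
    rw [dim_prod, dim_point]; push_cast; ring
  change _ ∈ C.gr _ ((M.X.X.dim : ℤ) + (0 - M.X.m) +
    ((M.X.X.dim : ℤ) - (M.X.X.prod (point 𝒱)).dim)) at h1
  rw [h2] at h1
  exact h1

lemma comp_clsT {M : Motive C} (τ : M ⟶ un C) (w : C.A (T.prod M.X.X)) :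
    C.comp w τ.f.1 = C.pull (fst T (point 𝒱)) (C.ctr (clsT τ) w) :=
  (congrArg (fun z : C.A (M.X.X.prod (point 𝒱)) => C.comp w z) (clsT_pull τ).symm).trans
    (C.comp_pull_fst (clsT τ) w)

lemma clsT_ctr {M : Motive C} (τ : M ⟶ un C) : C.ctr (clsT τ) M.p.1 = clsT τ := by
  apply C.pull_fst_point_injective
  rw [← comp_clsT, clsT_pull]
  exact congrArg Subtype.val (Idempotents.Karoubi.p_comp τ)

lemma clsT_comp {M N : Motive C} (g : N ⟶ M) (τ : M ⟶ un C) :
    clsT (g ≫ τ) = C.ctr (clsT τ) g.f.1 := by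
  apply C.pull_fst_point_injective
  rw [← comp_clsT, clsT_pull]
  rfl

lemma clsT_eq_zero {M : Motive C} {τ : M ⟶ un C} (h : clsT τ = 0) : τ = 0 := by
  apply hom_eq_of_cls
  rw [← clsT_pull, h, map_zero]
  rfl

/-- The class on `X` of a morphism from the unit to `(X, m, p)`. -/
noncomputable def clsF {M : Motive C} (f : un C ⟶ M) : C.A M.X.X :=
  C.push (fst M.X.X (point 𝒱)) (tp C f.f.1)

lemma clsF_pull {M : Motive C} (f : un C ⟶ M) :
    C.pull (fst M.X.X (point 𝒱)) (clsF f) = tp C f.f.1 := C.pull_push_fst_point _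

lemma clsF_mem {M : Motive C} (f : un C ⟶ M) : clsF f ∈ C.gr _ M.X.m := by
  have h1 := C.push_mem (fst M.X.X (point 𝒱)) (tp_mem f.f.2)
  have h2 : ((point 𝒱).dim : ℤ) + (M.X.m - 0) + ((M.X.X.dim : ℤ) -
      (M.X.X.prod (point 𝒱)).dim) = M.X.m := by
    rw [dim_prod, dim_point]; push_cast; ring
  change _ ∈ C.gr _ (((point 𝒱).dim : ℤ) + (M.X.m - 0) +
    ((M.X.X.dim : ℤ) - (M.X.X.prod (point 𝒱)).dim)) at h1
  rw [h2] at h1
  exact h1

lemma comp_clsF {M : Motive C} (f : un C ⟶ M) (w : C.A (M.X.X.prod T)) :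
    tp C (C.comp f.f.1 w) = C.pull (fst T (point 𝒱)) (C.ctr (clsF f) (tp C w)) :=
  (tp_comp (C := C) (X := point 𝒱) f.f.1 w).trans
    ((congrArg (fun z : C.A (M.X.X.prod (point 𝒱)) => C.comp (tp C w) z) (clsF_pull f).symm).trans
      (C.comp_pull_fst (clsF f) (tp C w)))

lemma clsF_ctr {M : Motive C} (f : un C ⟶ M) : C.ctr (clsF f) (tp C M.p.1) = clsF f := by
  apply C.pull_fst_point_injective
  rw [← comp_clsF, clsF_pull]
  exact congrArg (tp C) (congrArg Subtype.val (Idempotents.Karoubi.comp_p f))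

lemma clsF_comp {M N : Motive C} (f : un C ⟶ M) (g : M ⟶ N) :
    clsF (f ≫ g) = C.ctr (clsF f) (tp C g.f.1) := by
  apply C.pull_fst_point_injective
  rw [← comp_clsF, clsF_pull]
  rfl

lemma clsF_eq_zero {M : Motive C} {f : un C ⟶ M} (h : clsF f = 0) : f = 0 := by
  apply hom_eq_of_cls
  apply tp_inj
  rw [← clsF_pull, h, map_zero]
  exact tp_zero.symm

/-- A kernel of a morphism to the unit. -/
theorem isKer_kernel {M : Motive C} (τ : M ⟶ un C) [HasKernel τ] :
    IsKer C (clsT τ) M.X.m M.p.1 (kernel τ).X.X (kernel τ).X.m (kernel τ).p.1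
      (kernel.ι τ).f.1 where
  τ_mem := clsT_mem τ
  p_mem := mem_congr C M.p.2 (by simp only [Twisted.deg]; ring)
  u_mem := mem_congr C (kernel.ι τ).f.2 (by simp only [Twisted.deg])
  p_idem := congrArg Subtype.val M.idem
  ctr_p := clsT_ctr τ
  ctr_u := by
    rw [← clsT_comp, kernel.condition]
    change C.push _ (0 : C.A _) = 0
    rw [map_zero]
  mono := by
    intro T l g hg hge hgu
    have h1 : mkHom g hg hge ≫ kernel.ι τ = 0 := hom_eq_of_cls hgu
    have h2 : mkHom g hg hge = 0 := zero_of_comp_mono _ h1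
    exact congrArg Subtype.val (congrArg Idempotents.Karoubi.Hom.f h2)
  lift := by
    intro T l w hw hwp hwτ
    have h1 : mkHom w hw hwp ≫ τ = 0 := by
      apply clsT_eq_zero
      rw [clsT_comp]
      exact hwτ
    refine ⟨(kernel.lift τ _ h1).f.1, (kernel.lift τ _ h1).f.2,
      congrArg Subtype.val (Idempotents.Karoubi.comp_p (kernel.lift τ _ h1)), ?_⟩
    exact congrArg Subtype.val (congrArg Idempotents.Karoubi.Hom.f (kernel.lift_ι τ _ h1))

/-- A cokernel of a morphism from the unit. -/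
theorem isKer_cokernel {M : Motive C} (f : un C ⟶ M) [HasCokernel f] :
    IsKer C (clsF f) (M.X.X.dim - M.X.m) (tp C M.p.1) (cokernel f).X.X
      ((cokernel f).X.X.dim - (cokernel f).X.m) (tp C (cokernel f).p.1)
      (tp C (cokernel.π f).f.1) where
  τ_mem := mem_congr C (clsF_mem f) (by ring)
  p_mem := tp_mem (mem_congr C M.p.2 (by simp only [Twisted.deg]; ring))
  u_mem := tp_mem (mem_congr C (cokernel.π f).f.2 (by simp only [Twisted.deg]; ring))
  p_idem := by
    rw [← tp_comp]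
    exact congrArg (tp C) (congrArg Subtype.val M.idem)
  ctr_p := clsF_ctr f
  ctr_u := by
    rw [← clsF_comp, cokernel.condition]
    change C.push _ (tp C (0 : C.A _)) = 0
    rw [tp_zero, map_zero]
  mono := by
    intro T l g hg hge hgu
    have hg' : tp C g ∈ C.gr ((cokernel f).X.X.prod T)
        ((cokernel f).X.X.dim + ((T.dim - l) - (cokernel f).X.m)) :=
      mem_congr C (tp_mem hg) (by ring)
    have hge' : C.comp (cokernel f).p.1 (tp C g) = tp C g := by
      rw [← tp_tp (C.comp (cokernel f).p.1 (tp C g)), tp_comp, tp_tp, hge]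
    have h1 : cokernel.π f ≫ mkHom' (tp C g) hg' hge' = 0 := by
      apply hom_eq_of_cls
      change C.comp (cokernel.π f).f.1 (tp C g) = 0
      rw [← tp_tp (C.comp (cokernel.π f).f.1 (tp C g)), tp_comp, tp_tp, hgu, tp_zero]
    have h2 : mkHom' (tp C g) hg' hge' = 0 := zero_of_epi_comp _ h1
    have h3 : tp C g = 0 := congrArg Subtype.val (congrArg Idempotents.Karoubi.Hom.f h2)
    rw [← tp_tp g, h3, tp_zero]
  lift := by
    intro T l w hw hwp hwτ
    have hw' : tp C w ∈ C.gr (M.X.X.prod T) (M.X.X.dim + ((T.dim - l) - M.X.m)) :=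
      mem_congr C (tp_mem hw) (by ring)
    have hwp' : C.comp M.p.1 (tp C w) = tp C w := by
      rw [← tp_tp (C.comp M.p.1 (tp C w)), tp_comp, tp_tp, hwp]
    have h1 : f ≫ mkHom' (tp C w) hw' hwp' = 0 := by
      apply clsF_eq_zero
      rw [clsF_comp]
      change C.ctr (clsF f) (tp C (tp C w)) = 0
      rw [tp_tp]
      exact hwτ
    refine ⟨tp C (cokernel.desc f _ h1).f.1, mem_congr C (tp_mem (cokernel.desc f _ h1).f.2)
      (by simp only [Twisted.deg, motive, Idempotents.toKaroubi]; ring), ?_, ?_⟩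
    · rw [← tp_comp]
      exact congrArg (tp C) (congrArg Subtype.val
        (Idempotents.Karoubi.p_comp (cokernel.desc f _ h1)))
    · rw [← tp_comp]
      exact (congrArg (tp C) (congrArg Subtype.val (congrArg Idempotents.Karoubi.Hom.f
        (cokernel.π_desc f _ h1)))).trans (tp_tp w)

/-- The trace of an endomorphism of a motive. -/
noncomputable def trM {M : Motive C} (φ : M ⟶ M) : ℚ := tr C φ.f.1

lemma mem_end {M : Motive C} (φ : M ⟶ M) : φ.f.1 ∈ C.gr (M.X.X.prod M.X.X) M.X.X.dim :=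
  mem_congr C φ.f.2 (by simp only [Twisted.deg]; ring)

theorem trace_kernel {M : Motive C} {τ : M ⟶ un C} (hτ : τ ≠ 0) [HasKernel τ] {φ : M ⟶ M}
    {ψ : kernel τ ⟶ kernel τ} (hφ : φ ≫ τ = τ) (hc : ψ ≫ kernel.ι τ = kernel.ι τ ≫ φ) :
    trM ψ = trM φ - 1 := by
  refine (isKer_kernel τ).trace (fun h => hτ (clsT_eq_zero h)) (mem_end φ) (mem_end ψ)
    (congrArg Subtype.val (Idempotents.Karoubi.comp_p φ))
    (congrArg Subtype.val (Idempotents.Karoubi.comp_p ψ)) ?_
    (congrArg Subtype.val (congrArg Idempotents.Karoubi.Hom.f hc))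
  rw [← clsT_comp, hφ, one_smul]

theorem trace_cokernel {M : Motive C} {f : un C ⟶ M} (hf : f ≠ 0) [HasCokernel f] {φ : M ⟶ M}
    {ψ : cokernel f ⟶ cokernel f} (hφ : f ≫ φ = f) (hc : cokernel.π f ≫ ψ = φ ≫ cokernel.π f) :
    trM ψ = trM φ - 1 := by
  have h1 := (isKer_cokernel f).trace (φ := tp C φ.f.1) (ψ := tp C ψ.f.1) (c := 1)
    (fun h => hf (clsF_eq_zero h)) (tp_mem (mem_end φ)) (tp_mem (mem_end ψ)) (by
      rw [← tp_comp]
      exact congrArg (tp C) (congrArg Subtype.val (Idempotents.Karoubi.p_comp φ))) (by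
      rw [← tp_comp]
      exact congrArg (tp C) (congrArg Subtype.val (Idempotents.Karoubi.p_comp ψ))) (by
      rw [← clsF_comp, hφ, one_smul]) (by
      rw [← tp_comp, ← tp_comp]
      exact congrArg (tp C) (congrArg Subtype.val (congrArg Idempotents.Karoubi.Hom.f hc)))
  rw [tr_tp, tr_tp] at h1
  exact h1

end Pool.Agent.Y99.AB
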