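import Pool.Agent.Y99.AB.Defs
import Pool.Agent.Y99.AB.Km

/-!
# The Frobenius endomorphisms of motives
-/

set_option autoImplicit false
set_option linter.unusedSimpArgs false
set_option linter.unusedSectionVars false

open CategoryTheory CategoryTheory.Limits AlgebraicGeometry

universe u v

namespace Pool.Agent.Y99.AB

open Pool.Agent.Y108.Mo SmClass SmClass.Obj CycleTheory

variable {k : Type u} [Field k] {𝒱 : SmClass k}
variable {C : CycleTheory.{u, v} 𝒱} [hC : IsCycleTheory C] {T T' V W X Y Z : 𝒱.Obj}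

lemma graphT_eq (f : X ⟶ X) : graphT C f = tp C (C.gph f) := rfl

lemma comp_graphT (g : Y ⟶ Y) (a : C.A (X.prod Y)) :
    C.comp a (graphT C g) = C.pull (prodMap (𝟙 X) g) a := by
  rw [← tp_tp (C.comp a (graphT C g)), tp_comp, graphT_eq, tp_tp, gph_comp, tp, tp, ← C.pull_comp,
    ← C.pull_comp]
  congr 2
  apply prod_ext <;> simp [sw, comp_lift]

lemma graphT_comp (f : X ⟶ X) (a : C.A (X.prod Y)) :
    C.comp (graphT C f) a = C.push (prodMap f (𝟙 Y)) a := by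
  have h1 : graphT C f = C.push (Obj.lift f (𝟙 X)) 1 := by
    rw [graphT_eq, tp, C.pull_iso (sw X X) (sw X X) sw_sw sw_sw, gph, ← C.push_comp]
    congr 2
    apply prod_ext <;> simp [sw, comp_lift]
  rw [h1, C.comp_def, C.base_fst, ← C.proj_right, ← C.push_comp, map_one, one_mul,
    ← C.pull_comp]
  have e1 : prodMap (Obj.lift f (𝟙 X)) (𝟙 Y) ≫ t13 X X Y = prodMap f (𝟙 Y) := by
    apply prod_ext <;> simp [t13]
  have e2 : prodMap (Obj.lift f (𝟙 X)) (𝟙 Y) ≫ t23 X X Y = 𝟙 _ := by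
    apply prod_ext <;> simp [t23]
  rw [e1, e2, C.pull_id]

section frob

variable {q : ℕ} (Φ : Frob C q)

lemma frob_pull {i : ℤ} {a : C.A X} (h : a ∈ C.gr X i) :
    C.pull (Φ.F X) a = (q : ℚ) ^ i • a := Φ.pull h

lemma frob_push_one (X : 𝒱.Obj) : C.push (Φ.F X) 1 = (q : ℚ) ^ X.dim • (1 : C.A X) := Φ.push_one X

lemma frob_prod (X Y : 𝒱.Obj) :
    Φ.F (X.prod Y) = prodMap (Φ.F X) (𝟙 Y) ≫ prodMap (𝟙 X) (Φ.F Y) := by
  apply prod_ext
  · rw [Φ.nat, Category.assoc, prodMap_fst, Category.comp_id, prodMap_fst]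
  · rw [Φ.nat, Category.assoc, prodMap_snd, prodMap_snd_assoc, Category.id_comp]

lemma frob_central (hq : q ≠ 0) {m n : ℤ} {a : C.A (X.prod Y)}
    (ha : a ∈ C.gr _ (X.dim + (n - m))) :
    (q : ℚ) ^ (-m) • C.comp (graphT C (Φ.F X)) a =
      (q : ℚ) ^ (-n) • C.comp a (graphT C (Φ.F Y)) := by
  have hq' : (q : ℚ) ≠ 0 := Nat.cast_ne_zero.2 hq
  have h1 := frob_pull Φ ha
  rw [frob_prod, C.pull_comp] at h1
  have h2 := congrArg (C.push (prodMap (Φ.F X) (𝟙 Y))) h1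
  have h3 := C.proj_left (prodMap (Φ.F X) (𝟙 Y)) 1 (C.pull (prodMap (𝟙 X) (Φ.F Y)) a)
  rw [mul_one] at h3
  have h4 : C.push (prodMap (Φ.F X) (𝟙 Y)) 1 = (q : ℚ) ^ X.dim • (1 : C.A (X.prod Y)) := by
    have h5 := C.base_fst (Φ.F X) Y 1
    rw [map_one (C.pull (fst X Y))] at h5
    rw [← h5, frob_push_one, map_smul, map_one]
  rw [h3, h4, mul_smul_comm, mul_one, map_smul] at h2
  rw [graphT_comp, comp_graphT]
  have h6 : (q : ℚ) ^ (X.dim + (n - m)) = (q : ℚ) ^ X.dim * (q : ℚ) ^ (n - m) := by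
    rw [zpow_add₀ hq', zpow_natCast]
  have h7 : C.pull (prodMap (𝟙 X) (Φ.F Y)) a =
      (q : ℚ) ^ (n - m) • C.push (prodMap (Φ.F X) (𝟙 Y)) a := by
    rw [h6, mul_smul] at h2
    have h8 := congrArg (fun z => ((q : ℚ) ^ X.dim)⁻¹ • z) h2
    rwa [inv_smul_smul₀ (pow_ne_zero _ hq'), inv_smul_smul₀ (pow_ne_zero _ hq')] at h8
  rw [h7, smul_smul, ← zpow_add₀ hq']
  congr 2
  ring

lemma graphT_mem (f : X ⟶ X) : graphT C f ∈ C.gr (X.prod X) X.dim := by
  rw [graphT_eq]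
  apply tp_mem
  have h1 := C.push_mem (Obj.lift (𝟙 X) f) (C.one_mem X)
  have h2 : (0 : ℤ) + (((X.prod X).dim : ℤ) - X.dim) = X.dim := by
    rw [dim_prod]; push_cast; ring
  rwa [h2] at h1

/-- The Frobenius endomorphism of `(X, m)`. -/
noncomputable def frT (M : Twisted C) : M ⟶ M :=
  ⟨(q : ℚ) ^ (-M.m) • graphT C (Φ.F M.X),
    mem_congr C (Submodule.smul_mem _ _ (graphT_mem _)) (by simp only [Twisted.deg]; ring)⟩

lemma frT_val (M : Twisted C) : (frT Φ M).1 = (q : ℚ) ^ (-M.m) • graphT C (Φ.F M.X) := rfl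

lemma frT_nat (hq : q ≠ 0) {M N : Twisted C} (a : M ⟶ N) : frT Φ M ≫ a = a ≫ frT Φ N := by
  apply hom_ext'
  rw [comp_val, comp_val, frT_val, frT_val, smul_comp', comp_smul']
  exact frob_central Φ hq a.2

/-- The Frobenius endomorphism of a motive. -/
noncomputable def frM (hq : q ≠ 0) (M : Motive C) : M ⟶ M :=
  ⟨M.p ≫ frT Φ M.X, by
    rw [Category.assoc, frT_nat Φ hq, ← Category.assoc M.p M.p, M.idem, ← Category.assoc,
      M.idem]⟩

lemma frM_nat (hq : q ≠ 0) {M N : Motive C} (g : M ⟶ N) :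
    frM Φ hq M ≫ g = g ≫ frM Φ hq N := by
  apply Idempotents.Karoubi.hom_ext
  change (M.p ≫ frT Φ M.X) ≫ g.f = g.f ≫ N.p ≫ frT Φ N.X
  rw [Category.assoc, frT_nat Φ hq, ← Category.assoc, ← Category.assoc,
    Idempotents.Karoubi.p_comp, Idempotents.Karoubi.comp_p]

lemma frM_un (hq : q ≠ 0) : frM Φ hq (un C) = 𝟙 _ := by
  apply hom_eq_of_cls
  change C.comp (C.diag (point 𝒱)) ((q : ℚ) ^ (-(0 : ℤ)) • graphT C (Φ.F (point 𝒱))) =
    C.diag (point 𝒱)
  rw [neg_zero, zpow_zero, one_smul, C.diag_comp, toPoint_ext (Φ.F (point 𝒱)) (𝟙 _)]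
  change C.pull (sw _ _) (C.push (Obj.lift (𝟙 (point 𝒱)) (𝟙 (point 𝒱))) 1) =
    C.push (Obj.lift (𝟙 (point 𝒱)) (𝟙 (point 𝒱))) 1
  rw [C.pull_iso _ _ sw_sw sw_sw, ← C.push_comp]
  congr 2
  apply prod_ext <;> simp [sw, comp_lift]

/-- The powers of the Frobenius endomorphism. -/
noncomputable def frP (hq : q ≠ 0) (M : Motive C) : ℕ → (M ⟶ M)
  | 0 => 𝟙 M
  | s + 1 => frP hq M s ≫ frM Φ hq M

lemma frP_nat (hq : q ≠ 0) {M N : Motive C} (g : M ⟶ N) (s : ℕ) :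
    frP Φ hq M s ≫ g = g ≫ frP Φ hq N s := by
  induction s with
  | zero => rw [frP, frP, Category.id_comp, Category.comp_id]
  | succ s ih => rw [frP, frP, Category.assoc, frM_nat, ← Category.assoc, ih, Category.assoc]

lemma frP_un (hq : q ≠ 0) (s : ℕ) : frP Φ hq (un C) s = 𝟙 _ := by
  induction s with
  | zero => rfl
  | succ s ih => rw [frP, ih, frM_un, Category.comp_id]

theorem trace_frP_kernel (hq : q ≠ 0) {M : Motive C} {τ : M ⟶ un C} (hτ : τ ≠ 0) [HasKernel τ]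
    (s : ℕ) : trM (frP Φ hq (kernel τ) s) = trM (frP Φ hq M s) - 1 := by
  apply trace_kernel hτ
  · rw [frP_nat, frP_un, Category.comp_id]
  · exact frP_nat Φ hq _ s

theorem trace_frP_cokernel (hq : q ≠ 0) {M : Motive C} {f : un C ⟶ M} (hf : f ≠ 0)
    [HasCokernel f] (s : ℕ) : trM (frP Φ hq (cokernel f) s) = trM (frP Φ hq M s) - 1 := by
  apply trace_cokernel hf
  · rw [← frP_nat, frP_un, Category.id_comp]
  · exact (frP_nat Φ hq _ s).symm

end frob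

end Pool.Agent.Y99.AB
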