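import Mathlib

/-!
# Polynomials in an operator which project to a generalized eigenspace
-/

set_option autoImplicit false

namespace Pool.Agent.Y99.AB

open Polynomial Module

section

variable {K V W : Type*} [Field K] [AddCommGroup V] [Module K V] [FiniteDimensional K V]
  [AddCommGroup W] [Module K W] [FiniteDimensional K W]

omit [FiniteDimensional K V] in
lemma aeval_sub_pow (f : Module.End K V) (n : ℕ) :
    aeval f ((X - C (1 : K)) ^ n) = (f - (1 : K) • (1 : Module.End K V)) ^ n := by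
  rw [map_pow, map_sub, aeval_X, aeval_C, Algebra.algebraMap_eq_smul_one]

omit [FiniteDimensional K V] in
lemma proj_aux {f : Module.End K V} {G Q P α β : K[X]} {r : ℕ} (hG : aeval f G = 0)
    (hGQ : G = (X - C 1) ^ r * Q) (hQ : IsCoprime (X - C (1 : K)) Q)
    (hαβ : α * (X - C 1) ^ (r + 1) + β * Q = 1) (hP : P = β * Q) :
    (∀ v, aeval f P v ∈ f.maxGenEigenspace 1) ∧ ∀ v ∈ f.maxGenEigenspace 1, aeval f P v = v := by
  have hpow : ∀ n : ℕ, aeval f ((X - C (1 : K)) ^ n) =
      (f - (1 : K) • (1 : Module.End K V)) ^ n := fun n => by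
    rw [map_pow, map_sub, aeval_X, aeval_C, Algebra.algebraMap_eq_smul_one]
  constructor
  · intro v
    rw [Module.End.mem_maxGenEigenspace]
    refine ⟨r, ?_⟩
    rw [← hpow, ← Module.End.mul_apply, ← map_mul, hP,
      show (X - C (1 : K)) ^ r * (β * Q) = β * G by rw [hGQ]; ring, map_mul, hG, mul_zero,
      LinearMap.zero_apply]
  · intro v hv
    rw [Module.End.mem_maxGenEigenspace] at hv
    obtain ⟨N, hN⟩ := hv
    rw [← hpow] at hN
    have h1 : aeval f ((X - C (1 : K)) ^ r) v = 0 := by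
      obtain ⟨γ, δ, hγδ⟩ := (hQ.pow_left (m := N))
      have h2 : aeval f ((X - C (1 : K)) ^ r) v =
          aeval f ((γ * (X - C 1) ^ N + δ * Q) * (X - C (1 : K)) ^ r) v := by
        rw [hγδ, one_mul]
      rw [h2, show (γ * (X - C 1) ^ N + δ * Q) * (X - C (1 : K)) ^ r =
        γ * (X - C (1 : K)) ^ r * (X - C 1) ^ N + δ * G by rw [hGQ]; ring, map_add, map_mul,
        map_mul (aeval f) δ G, hG, mul_zero, add_zero, Module.End.mul_apply, hN, map_zero]
    have h3 : aeval f (α * (X - C 1) ^ (r + 1) + β * Q) v = v := by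
      rw [hαβ, map_one]; rfl
    rw [map_add, LinearMap.add_apply, pow_succ', ← mul_assoc, map_mul, Module.End.mul_apply,
      h1, map_zero, zero_add, ← hP] at h3
    exact h3

lemma exists_proj (f : Module.End K V) (g : Module.End K W) : ∃ P : K[X], P.eval 1 = 1 ∧
    ((∀ v, aeval f P v ∈ f.maxGenEigenspace 1) ∧ ∀ v ∈ f.maxGenEigenspace 1, aeval f P v = v) ∧
    ((∀ v, aeval g P v ∈ g.maxGenEigenspace 1) ∧
      ∀ v ∈ g.maxGenEigenspace 1, aeval g P v = v) := by
  have hf0 : minpoly K f ≠ 0 := minpoly.ne_zero (Algebra.IsIntegral.isIntegral f)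
  have hg0 : minpoly K g ≠ 0 := minpoly.ne_zero (Algebra.IsIntegral.isIntegral g)
  have hG0 : minpoly K f * minpoly K g ≠ 0 := mul_ne_zero hf0 hg0
  obtain ⟨Q, hGQ, hnd⟩ := exists_eq_pow_rootMultiplicity_mul_and_not_dvd
    (minpoly K f * minpoly K g) hG0 1
  set r := (minpoly K f * minpoly K g).rootMultiplicity 1
  have hQ : IsCoprime (X - C (1 : K)) Q :=
    ((irreducible_X_sub_C (1 : K)).coprime_iff_not_dvd).2 hnd
  obtain ⟨α, β, hαβ⟩ := hQ.pow_left (m := r + 1)
  refine ⟨β * Q, ?_, proj_aux ?_ hGQ hQ hαβ rfl, proj_aux ?_ hGQ hQ hαβ rfl⟩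
  · have h1 := congrArg (Polynomial.eval 1) hαβ
    rw [eval_add, eval_mul, eval_pow, eval_sub, eval_X, eval_C, sub_self, zero_pow (by omega),
      mul_zero, zero_add, eval_one] at h1
    exact h1
  · rw [map_mul, minpoly.aeval, zero_mul]
  · rw [map_mul, minpoly.aeval K g, mul_zero]

lemma trace_proj {f π s : Module.End K V} {P : K[X]}
    (h1 : ∀ v, aeval f P v ∈ f.maxGenEigenspace 1)
    (h2 : ∀ v ∈ f.maxGenEigenspace 1, aeval f P v = v) (hc : Commute f π) (hπ : π * π = π)
    (hs : ∀ v ∈ f.maxGenEigenspace 1, s v = v) :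
    LinearMap.trace K V (s * (π * aeval f P)) =
      (finrank K (LinearMap.range π ⊓ f.maxGenEigenspace 1 : Submodule K V) : K) := by
  have hmaps : ∀ v ∈ f.maxGenEigenspace 1, π v ∈ f.maxGenEigenspace 1 := fun v hv =>
    Module.End.mapsTo_maxGenEigenspace_of_comm hc 1 hv
  have hproj : LinearMap.IsProj (LinearMap.range π ⊓ f.maxGenEigenspace 1 : Submodule K V)
      (s * (π * aeval f P)) := by
    refine ⟨fun v => ?_, fun v hv => ?_⟩
    · have h3 := hmaps _ (h1 v)
      rw [Module.End.mul_apply, Module.End.mul_apply, hs _ h3]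
      exact ⟨⟨_, rfl⟩, h3⟩
    · obtain ⟨⟨w, rfl⟩, hv2⟩ := hv
      have h4 : π (π w) = π w := by rw [← Module.End.mul_apply, hπ]
      rw [Module.End.mul_apply, Module.End.mul_apply, h2 _ hv2, h4, hs _ hv2]
  exact hproj.trace

omit [FiniteDimensional K V] in
lemma trace_sum {f π s : Module.End K V} (P : K[X]) {t : ℕ → K}
    (ht : ∀ n, LinearMap.trace K V (s * (π * f ^ n)) = t n) :
    LinearMap.trace K V (s * (π * aeval f P)) =
      ∑ n ∈ Finset.range (P.natDegree + 1), P.coeff n * t n := by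
  rw [aeval_eq_sum_range, Finset.mul_sum, Finset.mul_sum, map_sum]
  refine Finset.sum_congr rfl fun n _ => ?_
  rw [mul_smul_comm, mul_smul_comm, map_smul, ht, smul_eq_mul]

omit [FiniteDimensional K V] in
/-- The generalized eigenspaces of a multiple. -/
lemma maxGen_smul {f : Module.End K V} {c : K} (hc : c ≠ 0) :
    (c⁻¹ • f).maxGenEigenspace 1 = f.maxGenEigenspace c := by
  ext v
  rw [Module.End.mem_maxGenEigenspace, Module.End.mem_maxGenEigenspace]
  have h1 : c⁻¹ • f - (1 : K) • (1 : Module.End K V) = c⁻¹ • (f - c • (1 : Module.End K V)) := by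
    rw [smul_sub, smul_smul, inv_mul_cancel₀ hc]
  refine exists_congr fun n => ?_
  rw [h1, _root_.smul_pow, LinearMap.smul_apply]
  constructor
  · intro h
    exact (smul_eq_zero.1 h).resolve_left (pow_ne_zero _ (inv_ne_zero hc))
  · intro h
    rw [h, smul_zero]

end

end Pool.Agent.Y99.AB
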