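import Pool.Agent.Y99.AB.Bd

/-!
# Numerically trivial correspondences in abelian categories of motives
-/

set_option autoImplicit false
set_option linter.unusedSimpArgs false
set_option linter.unusedSectionVars false
set_option linter.style.haveILetI false

open CategoryTheory CategoryTheory.Limits AlgebraicGeometry

universe u v w

namespace Pool.Agent.Y99.AB

open Pool.Agent.Y108.Mo SmClass SmClass.Obj CycleTheory
open Module

variable {k : Type u} [Field k] {𝒱 : SmClass k}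
variable {C : CycleTheory.{u, v} 𝒱} [hC : IsCycleTheory C] {T T' V W X Y Z : 𝒱.Obj}

/-! ### The external product of the diagonal and a correspondence -/

lemma push_jj_one (T Z X : 𝒱.Obj) : C.push (jj T Z X) 1 =
    C.pull (prodMap (fst T Z) (fst T X)) (C.diag T) := by
  have e1 : prodMap (fst T Z) (fst T X) =
      (aJ (T.prod Z) T X ≫ fst ((T.prod Z).prod T) X) ≫ prodMap (fst T Z) (𝟙 T) := by
    apply prod_ext <;> simp [aJ, comp_lift]
  have e2 : C.pull (prodMap (fst T Z) (𝟙 T)) (C.diag T) =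
      C.push (Obj.lift (𝟙 (T.prod Z)) (fst T Z)) 1 := by
    rw [← C.gph_comp, C.comp_diag, gph]
  have e3 : prodMap (Obj.lift (𝟙 (T.prod Z)) (fst T Z)) (𝟙 X) ≫ aI (T.prod Z) T X =
      jj T Z X := by
    apply prod_ext
    · simp [aI, jj, comp_lift]
    · apply prod_ext <;> simp [aI, jj, comp_lift]
  rw [e1, C.pull_comp, e2, C.pull_comp, C.base_fst, map_one (C.pull (fst (T.prod Z) X)),
    C.pull_iso (aJ (T.prod Z) T X) (aI (T.prod Z) T X) aJ_aI aI_aJ, ← C.push_comp, e3]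

lemma ax_eq (T : 𝒱.Obj) (u : C.A (Z.prod X)) : ax C T u =
    C.pull (prodMap (fst T Z) (fst T X)) (C.diag T) *
      C.pull (prodMap (snd T Z) (snd T X)) u := by
  have e1 : prodMap (snd T Z) (𝟙 X) = jj T Z X ≫ prodMap (snd T Z) (snd T X) := by
    apply prod_ext <;> simp [jj]
  rw [ax, e1, C.pull_comp, ← push_jj_one, mul_comm]
  have h1 := C.proj_left (jj T Z X) 1 (C.pull (prodMap (snd T Z) (snd T X)) u)
  rw [mul_one] at h1
  exact h1

lemma comp_pull_right (u : C.A (Z.prod X)) (g : W ⟶ Y) (v : C.A (X.prod Y)) :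
    C.comp u (C.pull (prodMap (𝟙 X) g) v) = C.pull (prodMap (𝟙 Z) g) (C.comp u v) := by
  have h1 : ∀ {A : 𝒱.Obj} (w : C.A (A.prod Y)), tp C (C.pull (prodMap (𝟙 A) g) w) =
      C.pull (prodMap g (𝟙 A)) (tp C w) := by
    intro A w
    rw [tp, tp, ← C.pull_comp, ← C.pull_comp]
    congr 2
    apply prod_ext <;> simp [sw, comp_lift]
  apply tp_inj
  rw [tp_comp, h1, h1, pull_comp_left, tp_comp]

lemma ax_comp (T : 𝒱.Obj) (u : C.A (Z.prod X)) (v : C.A (X.prod Y)) :
    C.comp (ax C T u) (ax C T v) = ax C T (C.comp u v) := by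
  rw [comp_ax, ax_eq T v, ax_eq T (C.comp u v), map_mul (C.pull (prodMap (ga T Z X) _))]
  have e1 : prodMap (ga T Z X) (𝟙 (T.prod Y)) ≫ prodMap (fst T X) (fst T Y) =
      t13 (T.prod Z) X (T.prod Y) ≫ prodMap (fst T Z) (fst T Y) := by
    apply prod_ext <;> simp [ga, t13]
  have e2 : prodMap (ga T Z X) (𝟙 (T.prod Y)) ≫ prodMap (snd T X) (snd T Y) =
      t23 (T.prod Z) X (T.prod Y) ≫ prodMap (𝟙 X) (snd T Y) := by
    apply prod_ext <;> simp [ga, t23]
  have h1 : C.pull (prodMap (ga T Z X) (𝟙 (T.prod Y))) (C.pull (prodMap (fst T X) (fst T Y))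
      (C.diag T)) = C.pull (t13 (T.prod Z) X (T.prod Y))
        (C.pull (prodMap (fst T Z) (fst T Y)) (C.diag T)) := by
    rw [← C.pull_comp, ← C.pull_comp, e1]
  have h2 : C.pull (prodMap (ga T Z X) (𝟙 (T.prod Y))) (C.pull (prodMap (snd T X) (snd T Y)) v) =
      C.pull (t23 (T.prod Z) X (T.prod Y)) (C.pull (prodMap (𝟙 X) (snd T Y)) v) := by
    rw [← C.pull_comp, ← C.pull_comp, e2]
  have h3 : C.push (t13 (T.prod Z) X (T.prod Y)) (C.pull (fst ((T.prod Z).prod X) (T.prod Y))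
      (C.pull (prodMap (snd T Z) (𝟙 X)) u) * C.pull (t23 (T.prod Z) X (T.prod Y))
        (C.pull (prodMap (𝟙 X) (snd T Y)) v)) =
      C.pull (prodMap (snd T Z) (snd T Y)) (C.comp u v) := by
    rw [← C.comp_def, pull_comp_left, comp_pull_right, ← C.pull_comp]
    congr 2
    apply prod_ext <;> simp
  rw [h1, h2, mul_left_comm, C.proj_left, h3]

/-- `id × u` acts on the classes on `T × Z` as composition with `u`. -/
lemma ctr_ax (x : C.A (T.prod Z)) (u : C.A (Z.prod X)) :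
    C.ctr x (tp C (ax C T u)) = C.comp x u := by
  have e1 : (jj T Z X ≫ sw (T.prod Z) (T.prod X)) ≫ fst (T.prod X) (T.prod Z) = t13 T Z X := by
    apply prod_ext <;> simp [jj, sw, t13]
  have e2 : (jj T Z X ≫ sw (T.prod Z) (T.prod X)) ≫ snd (T.prod X) (T.prod Z) =
      fst (T.prod Z) X := by
    simp [jj, sw]
  rw [ctr, tp, ax, C.pull_iso (sw (T.prod X) (T.prod Z)) (sw (T.prod Z) (T.prod X)) sw_sw sw_sw,
    ← C.push_comp, ← C.proj_right, ← C.push_comp, ← C.pull_comp, e1, e2, C.comp_def, mul_comm]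
  rfl

/-! ### Numerically trivial classes -/

/-- The intersection number with a graph. -/
lemma dg_graph (e : C.A (X.prod X)) (g : X ⟶ X) :
    dg C (C.pull (Obj.lift (𝟙 X) g) e) = dg C (e * C.gph g) := by
  have h1 := C.proj_left (Obj.lift (𝟙 X) g) 1 e
  rw [mul_one] at h1
  rw [gph, ← h1, dg_push]

lemma gph_mem (g : X ⟶ X) : C.gph g ∈ C.gr (X.prod X) X.dim := by
  have h1 := C.push_mem (Obj.lift (𝟙 X) g) (C.one_mem X)
  have h2 : (0 : ℤ) + (((X.prod X).dim : ℤ) - X.dim) = X.dim := by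
    rw [dim_prod]; push_cast; ring
  rwa [h2] at h1

lemma numTrivial_comp {f h : C.A (X.prod X)} (hf : f ∈ numTrivial C (X.prod X) X.dim)
    (hh : h ∈ C.gr (X.prod X) X.dim) : C.comp f h ∈ numTrivial C (X.prod X) X.dim := by
  rw [mem_numTrivial] at hf ⊢
  refine ⟨C.comp_mem hf.1 hh (by ring), fun y hy => ?_⟩
  rw [C.comp_def, ← C.proj_right, dg_push, mul_assoc, ← dg_push C (fst (X.prod X) X), C.proj_left]
  refine hf.2 _ (mem_congr C (C.push_mem (fst (X.prod X) X)
    (C.mul_mem (C.pull_mem (t23 X X X) hh) (C.pull_mem (t13 X X X) hy))) ?_)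
  simp only [dim_prod]; push_cast; ring

section frob

variable {q : ℕ} (Φ : Frob C q) (hq : q ≠ 0)

/-- The iterates of the Frobenius endomorphism. -/
noncomputable def itF (X : 𝒱.Obj) : ℕ → (X ⟶ X)
  | 0 => 𝟙 X
  | s + 1 => Φ.F X ≫ itF X s

lemma itF_nat {X Y : 𝒱.Obj} (f : X ⟶ Y) (s : ℕ) : itF Φ X s ≫ f = f ≫ itF Φ Y s := by
  induction s with
  | zero => rw [itF, itF, Category.id_comp, Category.comp_id]
  | succ s ih => rw [itF, itF, Category.assoc, ih, ← Category.assoc, Φ.nat, Category.assoc]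

lemma itF_prod (X Y : 𝒱.Obj) (s : ℕ) : itF Φ (X.prod Y) s = prodMap (itF Φ X s) (itF Φ Y s) := by
  apply prod_ext
  · rw [itF_nat, prodMap_fst]
  · rw [itF_nat, prodMap_snd]

include hq

lemma frP_val (M : Motive C) (s : ℕ) : ∃ c : ℚ, (frP Φ hq M s).f.1 =
    c • C.pull (prodMap (𝟙 M.X.X) (itF Φ M.X.X s)) M.p.1 := by
  induction s with
  | zero =>
    refine ⟨1, ?_⟩
    have e1 : prodMap (𝟙 M.X.X) (itF Φ M.X.X 0) = 𝟙 _ := by
      apply prod_ext <;> simp [itF]
    rw [e1, one_smul, C.pull_id]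
    rfl
  | succ s ih =>
    obtain ⟨c, hc⟩ := ih
    refine ⟨(q : ℚ) ^ (-M.X.m) * c, ?_⟩
    have h1 : (frP Φ hq M (s + 1)).f.1 = C.comp (frP Φ hq M s).f.1
        (C.comp M.p.1 ((q : ℚ) ^ (-M.X.m) • graphT C (Φ.F M.X.X))) := rfl
    have h2 : C.comp (frP Φ hq M s).f.1 M.p.1 = (frP Φ hq M s).f.1 :=
      congrArg Subtype.val (Idempotents.Karoubi.comp_p (frP Φ hq M s))
    rw [h1, ← C.comp_assoc, h2, comp_smul', comp_graphT, hc, map_smul, smul_smul, ← C.pull_comp]
    congr 3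
    apply prod_ext <;> simp [itF]

/-- The motive `(X × X, dim X, id × e)`. -/
noncomputable def axM (X : 𝒱.Obj) (e : C.A (X.prod X)) (he : e ∈ C.gr _ X.dim)
    (hee : C.comp e e = e) : Motive C where
  X := ⟨X.prod X, X.dim⟩
  p := ⟨ax C X e, mem_congr C (ax_mem he X) (by simp only [Twisted.deg, dim_prod]; push_cast; ring)⟩
  idem := hom_ext' (by
    change C.comp (ax C X e) (ax C X e) = ax C X e
    rw [ax_comp, hee])

lemma trM_axM {X : 𝒱.Obj} {e : C.A (X.prod X)} (he : e ∈ C.gr _ X.dim)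
    (hee : C.comp e e = e) (hn : e ∈ numTrivial C (X.prod X) X.dim) (s : ℕ) :
    trM (frP Φ hq (axM X e he hee) s) = 0 := by
  obtain ⟨c, hc⟩ := frP_val Φ hq (axM X e he hee) s
  have h1 : trM (frP Φ hq (axM X e he hee) s) = c *
      dg C (C.pull (Obj.lift (𝟙 (X.prod X)) (itF Φ (X.prod X) s)) (ax C X e)) := by
    rw [trM, hc, tr_smul, tr, ← C.pull_comp]
    congr 4
    change Obj.lift (𝟙 (X.prod X)) (𝟙 (X.prod X)) ≫ prodMap (𝟙 (X.prod X))
      (itF Φ (X.prod X) s) = _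
    apply prod_ext <;> simp
  have h2 : C.pull (Obj.lift (𝟙 (X.prod X)) (itF Φ (X.prod X) s)) (ax C X e) =
      C.pull (fst X X) (C.pull (Obj.lift (𝟙 X) (itF Φ X s)) (C.diag X)) *
        C.pull (snd X X) (C.pull (Obj.lift (𝟙 X) (itF Φ X s)) e) := by
    rw [ax_eq, map_mul, ← C.pull_comp, ← C.pull_comp, ← C.pull_comp, ← C.pull_comp, itF_prod]
    congr 3
    · apply prod_ext <;> simp [comp_lift]
    · apply prod_ext <;> simp [comp_lift]
  have h3 : dg C (C.pull (Obj.lift (𝟙 X) (itF Φ X s)) e) = 0 := by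
    rw [dg_graph]
    refine (mem_numTrivial.1 hn).2 _ (mem_congr C (gph_mem _) ?_)
    rw [dim_prod]; push_cast; ring
  rw [h1, h2, ← dg_push C (fst X X), push_mul_dg, h3, zero_smul, dg_zero, mul_zero]

end frob

variable {K : Type w} [Field K] [CharZero K] {R : Realization C K} (hR : IsRealization R)
  {q : ℕ} {Φ : Frob C q} (hRH : Riemann R Φ) (hq : q ≠ 0) (hab : IsAbelianCat (Motive C))

include hR hRH hq

lemma multM_zero {M : Motive C} (h : ∀ s, trM (frP Φ hq M s) = 0) : multM R Φ M = 0 := by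
  haveI := hR.finite M.X.X
  obtain ⟨P, -, hP, -⟩ := exists_proj (frE R Φ M) (frE R Φ M)
  have h1 := trace_proj (s := R.sgn M.X.X) hP.1 hP.2 (frE_comm hR hq M) (act_p hR M) (by
    intro v hv
    rw [frE, maxGen_smul (zpow_ne_zero _ (Nat.cast_ne_zero.2 hq))] at hv
    exact sgn_eq hR hRH _ hv)
  rw [trace_sum (t := fun _ => 0) P fun n => by
    rw [← act_frP hR hq, trM_eq hR, h n, Rat.cast_zero]] at h1
  simp only [mul_zero, Finset.sum_const_zero] at h1
  rw [multM]
  exact_mod_cast h1.symm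

include hab

/-- Numerically trivial idempotents are zero. -/
theorem idem_eq_zero {X : 𝒱.Obj} {e : C.A (X.prod X)} (hn : e ∈ numTrivial C (X.prod X) X.dim)
    (hee : C.comp e e = e) : e = 0 := by
  by_contra he0
  have he := (mem_numTrivial.1 hn).1
  have h1 : e ∈ frU (axM X e he hee) := by
    refine ⟨he, ?_⟩
    change C.ctr e (tp C (ax C X e)) = e
    rw [ctr_ax, hee]
  have h2 : multM R Φ (axM X e he hee) = 0 :=
    multM_zero hR hRH hq fun s => trM_axM Φ hq he hee hn s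
  have h3 := bound_from hR hRH hq hab 1 (axM X e he hee)
    (Submodule.span ℚ {(e : C.A (axM X e he hee).X.X)}) (Submodule.span_le.2
      (Set.singleton_subset_iff.2 h1)) (FiniteDimensional.span_singleton ℚ _)
    (finrank_span_singleton (K := ℚ) (v := (e : C.A (axM X e he hee).X.X)) he0).ge
  omega

end Pool.Agent.Y99.AB
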