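import Pool.Agent.Y99.AB.Nil

/-!
# Numerically trivial correspondences are nilpotent
-/

set_option autoImplicit false
set_option linter.unusedSimpArgs false
set_option linter.unusedSectionVars false
set_option linter.style.haveILetI false

open CategoryTheory CategoryTheory.Limits AlgebraicGeometry

universe u v w

namespace Pool.Agent.Y99.AB

open Pool.Agent.Y108.Mo SmClass SmClass.Obj CycleTheory
open Module

section alg

open Polynomial

lemma nil_of_idem {A : Type*} [Ring A] [Algebra ℚ A] [FiniteDimensional ℚ A] (f : A)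
    (h : ∀ e : A, e * e = e → (∃ b, e = b * f) → e = 0) : IsNilpotent f := by
  have hf0 : minpoly ℚ f ≠ 0 := minpoly.ne_zero (Algebra.IsIntegral.isIntegral f)
  obtain ⟨Q, hGQ, hnd⟩ := exists_eq_pow_rootMultiplicity_mul_and_not_dvd (minpoly ℚ f) hf0 0
  set r := (minpoly ℚ f).rootMultiplicity 0
  rw [C_0, sub_zero] at hGQ hnd
  have hQ : IsCoprime (X : ℚ[X]) Q := (irreducible_X.coprime_iff_not_dvd).2 hnd
  obtain ⟨α, β, hαβ⟩ := hQ.pow_left (m := r + 1)
  have hQf : f ^ (r + 1) * aeval f Q = 0 := by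
    have h1 : f ^ (r + 1) * aeval f Q = f * aeval f (minpoly ℚ f) := by
      rw [hGQ, map_mul, map_pow, aeval_X, pow_succ', mul_assoc]
    rw [h1, minpoly.aeval, mul_zero]
  have hone : aeval f α * f ^ (r + 1) + aeval f β * aeval f Q = 1 := by
    have h1 := congrArg (aeval f) hαβ
    rw [map_add, map_mul, map_mul, map_pow, aeval_X, map_one] at h1
    exact h1
  have hcomm : ∀ p : ℚ[X], f ^ (r + 1) * aeval f p = aeval f p * f ^ (r + 1) := by
    intro p
    have h1 : aeval f (X ^ (r + 1) * p) = aeval f (p * X ^ (r + 1)) := by rw [mul_comm]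
    rw [map_mul, map_mul, map_pow, aeval_X] at h1
    exact h1
  have hcomm2 : aeval f β * aeval f Q = aeval f Q * aeval f β := by
    rw [← map_mul, ← map_mul, mul_comm]
  have he : aeval f α * f ^ (r + 1) = 0 := by
    refine h _ ?_ ⟨aeval f α * f ^ r, by rw [mul_assoc, ← pow_succ]⟩
    have h1 : aeval f α * f ^ (r + 1) * (aeval f β * aeval f Q) = 0 := by
      rw [hcomm2, mul_assoc, ← mul_assoc (f ^ (r + 1)), hQf, zero_mul, mul_zero]
    have h2 : aeval f α * f ^ (r + 1) * (aeval f α * f ^ (r + 1) + aeval f β * aeval f Q) =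
        aeval f α * f ^ (r + 1) := by rw [hone, mul_one]
    rw [mul_add, h1, add_zero] at h2
    exact h2
  refine ⟨r + 1, ?_⟩
  rw [he, zero_add] at hone
  have h3 : f ^ (r + 1) * (aeval f β * aeval f Q) = 0 := by
    rw [hcomm2, ← mul_assoc, hQf, zero_mul]
  rw [hone, mul_one] at h3
  exact h3

end alg

variable {k : Type u} [Field k] {𝒱 : SmClass k}
variable {C : CycleTheory.{u, v} 𝒱} [hC : IsCycleTheory C] {T T' V W X Y Z : 𝒱.Obj}

noncomputable instance linTwisted : Linear ℚ (Twisted C) where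
  homModule M N := inferInstanceAs (Module ℚ (Corr C M N))
  smul_comp _ _ _ c f g := Subtype.ext (smul_comp' c f.1 g.1)
  comp_smul _ _ _ f c g := Subtype.ext (comp_smul' c f.1 g.1)

lemma end_pow_val (f : End (⟨X, 0⟩ : Twisted C)) (n : ℕ) :
    (f ^ n).1 = cpow C f.1 n := by
  induction n with
  | zero => rfl
  | succ n ih =>
    rw [pow_succ]
    change C.comp f.1 (f ^ n).1 = _
    rw [ih]
    rfl

variable {K : Type w} [Field K] [CharZero K] {R : Realization C K} (hR : IsRealization R)
  {q : ℕ} {Φ : Frob C q} (hRH : Riemann R Φ) (hq : q ≠ 0) (hab : IsAbelianCat (Motive C))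

include hR hRH hq hab

theorem nilpotent (X : 𝒱.Obj) {f : C.A (X.prod X)}
    (hf : f ∈ numTrivial C (X.prod X) X.dim) : ∃ n, cpow C f n = 0 := by
  have hf1 := (mem_numTrivial.1 hf).1
  haveI h1 : Module.Finite ℚ (C.gr (X.prod X) ((⟨X, 0⟩ : Twisted C).deg ⟨X, 0⟩)) :=
    finite_gr hR hRH hq hab _ _
  haveI h2 : FiniteDimensional ℚ (End (⟨X, 0⟩ : Twisted C)) := h1
  let f' : End (⟨X, 0⟩ : Twisted C) := ⟨f, mem_congr C hf1 (by simp only [Twisted.deg]; ring)⟩
  obtain ⟨n, hn⟩ := nil_of_idem f' (by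
    rintro e hee ⟨b, hb⟩
    have h3 : e.1 = C.comp f b.1 := congrArg Subtype.val hb
    have h4 : C.comp e.1 e.1 = e.1 := congrArg Subtype.val hee
    have h5 : e.1 ∈ numTrivial C (X.prod X) X.dim := by
      rw [h3]
      exact numTrivial_comp hf (mem_congr C b.2 (by simp only [Twisted.deg]; ring))
    exact Subtype.ext (idem_eq_zero hR hRH hq hab h5 h4))
  refine ⟨n, ?_⟩
  have h6 := end_pow_val f' n
  rw [hn] at h6
  exact h6.symm

omit hab in
/-- The local form: a nonzero class with a cokernel. -/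
theorem mult_pos (X : 𝒱.Obj) (i : ℤ) (x : C.gr X i) (hx : x ≠ 0) (h : HasCokernel (ofClass C x)) :
    1 ≤ mult R Φ X i := by
  have h0 : ofClass C x ≠ 0 := by
    intro h1
    have h2 : clsF (ofClass C x) = 0 := by
      rw [h1]
      change C.push _ (tp C (0 : C.A _)) = 0
      rw [tp_zero, map_zero]
    have h3 : fval (ofClass C x) = C.pull (snd (point 𝒱) X) x.1 := rfl
    have h4 : clsF (ofClass C x) = x.1 := by
      rw [clsF_eq, h3, tp]
      have h5 : C.pull (sw X (point 𝒱)) (C.pull (snd (point 𝒱) X) x.1) =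
          C.pull (fst X (point 𝒱)) x.1 := by
        rw [← C.pull_comp]
        congr 2
        simp [sw]
      exact (congrArg (C.push (fst X (point 𝒱))) h5).trans (C.push_pull_fst_point x.1)
    exact hx (Subtype.ext (h4.symm.trans h2))
  have h1 := multM_cokernel hR hRH hq h0
  rw [← multM_motive hR hq]
  omega

end Pool.Agent.Y99.AB
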