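import Pool.Agent.Y99.AB.Fr
import Pool.Agent.Y99.AB.La

/-!
# Multiplicities of the Frobenius eigenvalues on the realizations of motives
-/

set_option autoImplicit false
set_option linter.unusedSimpArgs false
set_option linter.unusedSectionVars false

open CategoryTheory CategoryTheory.Limits AlgebraicGeometry

universe u v w

namespace Pool.Agent.Y99.AB

open Pool.Agent.Y108.Mo SmClass SmClass.Obj CycleTheory

section grad

variable {K V : Type*} [Field K] [AddCommGroup V] [Module K V] {G : ℤ → Submodule K V}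

/-- Homogeneous components of generalized eigenvectors of an operator of degree zero. -/
lemma sum_comp (hG : DirectSum.IsInternal G) {f : Module.End K V}
    (hf : ∀ j, ∀ v ∈ G j, f v ∈ G j) {μ : K} {i : ℤ}
    (hi : ∀ j, ∀ v ∈ G j, v ≠ 0 → f v = μ • v → j = i) :
    f.maxGenEigenspace μ ≤ G i := by
  classical
  let _i : DirectSum.Decomposition G := hG.chooseDecomposition
  have key : ∀ (g : Module.End K V), (∀ j, ∀ v ∈ G j, g v ∈ G j) → ∀ (v : V) (j : ℤ),
      g (DirectSum.decompose G v j) = DirectSum.decompose G (g v) j := by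
    intro g hg v j
    induction v using DirectSum.Decomposition.inductionOn G with
    | zero => rw [map_zero g, DirectSum.decompose_zero]; exact map_zero g
    | homogeneous v =>
      rename_i l
      by_cases hlj : l = j
      · subst hlj
        rw [DirectSum.decompose_of_mem_same G v.2, DirectSum.decompose_of_mem_same G (hg l v v.2)]
      · rw [DirectSum.decompose_of_mem_ne G v.2 hlj,
          DirectSum.decompose_of_mem_ne G (hg l v v.2) hlj, map_zero]
    | add v v' h h' =>
      rw [map_add g v v', DirectSum.decompose_add, DirectSum.decompose_add, DirectSum.add_apply,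
        DirectSum.add_apply, Submodule.coe_add, Submodule.coe_add, map_add g, h, h']
  intro v hv
  rw [Module.End.mem_maxGenEigenspace] at hv
  obtain ⟨N, hN⟩ := hv
  have hg1 : ∀ j, ∀ v ∈ G j, (f - μ • (1 : Module.End K V)) v ∈ G j := fun j v hv =>
    Submodule.sub_mem _ (hf j v hv) (Submodule.smul_mem _ _ hv)
  have hg : ∀ n j, ∀ v ∈ G j, ((f - μ • (1 : Module.End K V)) ^ n) v ∈ G j := by
    intro n
    induction n with
    | zero => intro j v hv; exact hv
    | succ n ih =>
      intro j v hv
      rw [pow_succ', Module.End.mul_apply]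
      exact hg1 j _ (ih j v hv)
  have hzero : ∀ j, j ≠ i → (DirectSum.decompose G v j : V) = 0 := by
    intro j hj
    by_contra hne
    have h1 : ∃ n, ((f - μ • (1 : Module.End K V)) ^ n) (DirectSum.decompose G v j : V) = 0 :=
      ⟨N, by rw [key _ (hg N), hN, DirectSum.decompose_zero]; rfl⟩
    have h2 := Nat.find_spec h1
    have h3 : Nat.find h1 ≠ 0 := by
      intro h0
      rw [h0, pow_zero] at h2
      exact hne h2
    obtain ⟨n, hn⟩ := Nat.exists_eq_succ_of_ne_zero h3
    have h4 := Nat.find_min h1 (m := n) (by omega)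
    rw [hn, Nat.succ_eq_add_one, pow_succ', Module.End.mul_apply] at h2
    refine hj (hi j _ (hg n j _ (DirectSum.decompose G v j).2) h4 ?_)
    rw [LinearMap.sub_apply, LinearMap.smul_apply, Module.End.one_apply, sub_eq_zero] at h2
    exact h2
  rw [← DirectSum.sum_support_decompose G v]
  refine Submodule.sum_mem _ fun j _ => ?_
  by_cases hj : j = i
  · subst hj; exact (DirectSum.decompose G v j).2
  · rw [hzero j hj]; exact Submodule.zero_mem _

end grad

variable {k : Type u} [Field k] {𝒱 : SmClass k}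
variable {C : CycleTheory.{u, v} 𝒱} [hC : IsCycleTheory C] {T T' V W X Y Z : 𝒱.Obj}
variable {K : Type w} [Field K] [CharZero K] {R : Realization C K} (hR : IsRealization R)
  {q : ℕ} {Φ : Frob C q}

include hR

lemma sgn_eq (hRH : Riemann R Φ) (m : ℤ) {v : R.H X}
    (hv : v ∈ (frobH R Φ X).maxGenEigenspace ((q : K) ^ m)) : R.sgn X v = v := by
  have h1 : v ∈ R.gr X (2 * m) := by
    refine sum_comp (hR.internal X) (f := frobH R Φ X) ?_ ?_ hv
    · intro j v hv
      have h1 := hR.act_mem (X := X) (Y := X) (r := 0) (j := j) (a := graphT C (Φ.F X)) (v := v)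
        (by rw [add_zero]; exact graphT_mem _) hv
      rw [mul_zero, add_zero] at h1
      exact h1
    · intro j v hv hv0 hfv
      exact hRH X m j v hv hv0 hfv
  rw [hR.sgn_apply h1, zpow_mul]
  norm_num

/-- The operator of the Frobenius endomorphism of the motive `(X, m, p)`. -/
noncomputable def frE (R : Realization C K) (Φ : Frob C q) (M : Motive C) :
    Module.End K (R.H M.X.X) := ((q : K) ^ M.X.m)⁻¹ • frobH R Φ M.X.X

/-- The multiplicity of the eigenvalue one of the Frobenius endomorphism of a motive. -/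
noncomputable def multM (R : Realization C K) (Φ : Frob C q) (M : Motive C) : ℕ :=
  Module.finrank K (LinearMap.range (R.act M.p.1) ⊓ (frE R Φ M).maxGenEigenspace 1 :
    Submodule K (R.H M.X.X))

lemma act_frT (M : Motive C) : R.act (frT Φ M.X).1 = frE R Φ M := by
  rw [frT_val, hR.act_smul, frE, frobH]
  congr 1
  push_cast
  rw [zpow_neg]

lemma act_p (M : Motive C) : R.act M.p.1 * R.act M.p.1 = R.act M.p.1 := by
  have h1 := congrArg Subtype.val M.idem
  have h2 := hR.act_comp M.p.1 M.p.1
  rw [show C.comp M.p.1 M.p.1 = M.p.1 from h1] at h2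
  exact h2.symm

lemma frE_comm (hq : q ≠ 0) (M : Motive C) : Commute (frE R Φ M) (R.act M.p.1) := by
  have h1 := congrArg Subtype.val (frT_nat Φ hq M.p)
  have h2 := hR.act_comp (frT Φ M.X).1 M.p.1
  have h3 := hR.act_comp M.p.1 (frT Φ M.X).1
  rw [show C.comp (frT Φ M.X).1 M.p.1 = C.comp M.p.1 (frT Φ M.X).1 from h1, h3, act_frT hR] at h2
  exact h2

lemma act_frP (hq : q ≠ 0) (M : Motive C) (s : ℕ) :
    R.act (frP Φ hq M s).f.1 = R.act M.p.1 * (frE R Φ M) ^ s := by
  induction s with
  | zero => rw [pow_zero, mul_one]; rfl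
  | succ s ih =>
    have h1 : R.act (frP Φ hq M (s + 1)).f.1 =
        R.act (frM Φ hq M).f.1 * R.act (frP Φ hq M s).f.1 :=
      hR.act_comp (frP Φ hq M s).f.1 (frM Φ hq M).f.1
    have h2 : R.act (frM Φ hq M).f.1 = R.act (frT Φ M.X).1 * R.act M.p.1 :=
      hR.act_comp M.p.1 (frT Φ M.X).1
    rw [h1, h2, ih, act_frT hR, mul_assoc, ← mul_assoc (R.act M.p.1), act_p hR, ← mul_assoc,
      (frE_comm hR hq M).eq, mul_assoc, ← pow_succ']

lemma trM_eq (M : Motive C) (φ : M ⟶ M) :
    LinearMap.trace K (R.H M.X.X) (R.sgn M.X.X * R.act φ.f.1) = (trM φ : K) :=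
  hR.trace (mem_end φ) (dg_spec C _)

lemma multM_of_trace (hRH : Riemann R Φ) (hq : q ≠ 0) {M N : Motive C}
    (h : ∀ s, trM (frP Φ hq N s) = trM (frP Φ hq M s) - 1) :
    multM R Φ N + 1 = multM R Φ M := by
  have := hR.finite M.X.X
  have := hR.finite N.X.X
  obtain ⟨P, hP1, hPM, hPN⟩ := exists_proj (frE R Φ M) (frE R Φ N)
  have key : ∀ L : Motive C, ((∀ v, Polynomial.aeval (frE R Φ L) P v ∈
      (frE R Φ L).maxGenEigenspace 1) ∧ ∀ v ∈ (frE R Φ L).maxGenEigenspace 1,
      Polynomial.aeval (frE R Φ L) P v = v) → (multM R Φ L : K) =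
      ∑ n ∈ Finset.range (P.natDegree + 1), P.coeff n * (trM (frP Φ hq L n) : K) := by
    intro L hL
    have := hR.finite L.X.X
    have h1 := trace_proj (s := R.sgn L.X.X) hL.1 hL.2 (frE_comm hR hq L) (act_p hR L) (by
      intro v hv
      rw [frE, maxGen_smul (zpow_ne_zero _ (Nat.cast_ne_zero.2 hq))] at hv
      exact sgn_eq hR hRH _ hv)
    rw [multM, ← h1]
    exact trace_sum P fun n => by rw [← act_frP hR hq, trM_eq hR]
  have hM := key M hPM
  have hN := key N hPN
  have h1 : (multM R Φ N : K) = (multM R Φ M : K) - 1 := by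
    rw [hM, hN, eq_sub_iff_add_eq, ← eq_sub_iff_add_eq', ← Finset.sum_sub_distrib]
    rw [Polynomial.eval_eq_sum_range] at hP1
    rw [← hP1]
    refine Finset.sum_congr rfl fun n _ => ?_
    rw [h n, one_pow, mul_one]
    push_cast
    ring
  have h2 : ((multM R Φ N + 1 : ℕ) : K) = (multM R Φ M : K) := by
    push_cast
    rw [h1]; ring
  exact_mod_cast h2

lemma multM_kernel (hRH : Riemann R Φ) (hq : q ≠ 0) {M : Motive C} {τ : M ⟶ un C} (hτ : τ ≠ 0)
    [HasKernel τ] : multM R Φ (kernel τ) + 1 = multM R Φ M :=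
  multM_of_trace hR hRH hq fun s => trace_frP_kernel Φ hq hτ s

lemma multM_cokernel (hRH : Riemann R Φ) (hq : q ≠ 0) {M : Motive C} {f : un C ⟶ M} (hf : f ≠ 0)
    [HasCokernel f] : multM R Φ (cokernel f) + 1 = multM R Φ M :=
  multM_of_trace hR hRH hq fun s => trace_frP_cokernel Φ hq hf s

lemma multM_motive (hq : q ≠ 0) (X : 𝒱.Obj) (i : ℤ) : multM R Φ (motive C X i) = mult R Φ X i := by
  have h1 : R.act (motive C X i).p.1 = LinearMap.id := hR.act_diag X
  rw [multM, h1, mult, LinearMap.range_id, top_inf_eq, frE,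
    maxGen_smul (zpow_ne_zero _ (Nat.cast_ne_zero.2 hq))]
  rfl

end Pool.Agent.Y99.AB
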