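import Pool.Agent.Y99.AB.Tr

/-!
# The trace on the kernel of a morphism to the unit, and transposition
-/

set_option autoImplicit false
set_option linter.unusedSimpArgs false
set_option linter.unusedSectionVars false

open CategoryTheory AlgebraicGeometry

universe u v

namespace Pool.Agent.Y99.AB

open Pool.Agent.Y108.Mo SmClass SmClass.Obj CycleTheory

variable {k : Type u} [Field k] {𝒱 : SmClass k}
variable (C : CycleTheory.{u, v} 𝒱) [hC : IsCycleTheory C] {T T' V W X Y Z : 𝒱.Obj}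

/-- The data of a kernel `u : (Z, n, e) → (X, m, p)` of the morphism from the motive `(X, m, p)` to
the unit given by the class `τ`. -/
structure IsKer (τ : C.A X) (m : ℤ) (p : C.A (X.prod X)) (Z : 𝒱.Obj) (n : ℤ)
    (e : C.A (Z.prod Z)) (u : C.A (Z.prod X)) : Prop where
  τ_mem : τ ∈ C.gr X (X.dim - m)
  p_mem : p ∈ C.gr (X.prod X) X.dim
  u_mem : u ∈ C.gr (Z.prod X) (Z.dim + (m - n))
  p_idem : C.comp p p = p
  ctr_p : C.ctr τ p = τ
  ctr_u : C.ctr τ u = 0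
  mono : ∀ (T : 𝒱.Obj) (l : ℤ) (g : C.A (T.prod Z)), g ∈ C.gr _ (T.dim + (n - l)) →
    C.comp g e = g → C.comp g u = 0 → g = 0
  lift : ∀ (T : 𝒱.Obj) (l : ℤ) (w : C.A (T.prod X)), w ∈ C.gr _ (T.dim + (m - l)) →
    C.comp w p = w → C.ctr τ w = 0 →
    ∃ g ∈ C.gr (T.prod Z) (T.dim + (n - l)), C.comp g e = g ∧ C.comp g u = w

variable {C}

lemma ctr_smul' (I : C.A Z) (c : ℚ) (g : C.A (T.prod Z)) :
    C.ctr I (c • g) = c • C.ctr I g := by
  rw [ctr, smul_mul_assoc, map_smul]; rfl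

lemma smul_comp' (c : ℚ) (Γ : C.A (X.prod Y)) (Δ : C.A (Y.prod Z)) :
    C.comp (c • Γ) Δ = c • C.comp Γ Δ := by
  rw [comp_def, map_smul, smul_mul_assoc, map_smul]; rfl

lemma comp_smul' (c : ℚ) (Γ : C.A (X.prod Y)) (Δ : C.A (Y.prod Z)) :
    C.comp Γ (c • Δ) = c • C.comp Γ Δ := by
  rw [comp_def, map_smul, mul_smul_comm, map_smul]; rfl

lemma comp_sub' (Γ : C.A (X.prod Y)) (Δ Δ' : C.A (Y.prod Z)) :
    C.comp Γ (Δ - Δ') = C.comp Γ Δ - C.comp Γ Δ' := by
  rw [comp_def, map_sub, mul_sub, map_sub]; rfl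

lemma comp_zero' (Γ : C.A (X.prod Y)) : C.comp Γ (0 : C.A (Y.prod Z)) = 0 := by
  rw [comp_def, map_zero, mul_zero, map_zero]

lemma zero_comp' (Δ : C.A (Y.prod Z)) : C.comp (0 : C.A (X.prod Y)) Δ = 0 := by
  rw [comp_def, map_zero, zero_mul, map_zero]

lemma ax_mem {u : C.A (Z.prod X)} {i : ℤ} (hu : u ∈ C.gr _ i) (T : 𝒱.Obj) :
    ax C T u ∈ C.gr _ (i + T.dim) := by
  have h1 := C.push_mem (jj T Z X) (C.pull_mem (prodMap (snd T Z) (𝟙 X)) hu)
  have h2 : i + ((((T.prod Z).prod (T.prod X)).dim : ℤ) - ((T.prod Z).prod X).dim) = i + T.dim := by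
    simp only [dim_prod]; push_cast; ring
  rw [h2] at h1
  exact h1

/-- **The trace on the kernel.** -/
theorem IsKer.trace {τ : C.A X} {m : ℤ} {p : C.A (X.prod X)} {Z : 𝒱.Obj} {n : ℤ}
    {e : C.A (Z.prod Z)} {u : C.A (Z.prod X)} (h : IsKer C τ m p Z n e u) (hτ : τ ≠ 0)
    {φ : C.A (X.prod X)} {ψ : C.A (Z.prod Z)} {c : ℚ} (hφ : φ ∈ C.gr _ X.dim)
    (hψ : ψ ∈ C.gr _ Z.dim) (hφp : C.comp φ p = φ) (hψe : C.comp ψ e = ψ)
    (hφτ : C.ctr τ φ = c • τ) (hc : C.comp ψ u = C.comp u φ) :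
    tr C ψ = tr C φ - c := by
  set a : C.A ((X.prod X).prod X) := C.pull (fst (X.prod X) X) (C.pull (fst X X) τ) *
    C.pull (prodMap (snd X X) (𝟙 X)) φ with ha
  set b : C.A ((X.prod X).prod X) := C.pull (fst (X.prod X) X) (C.pull (snd X X) τ) *
    C.pull (prodMap (fst X X) (𝟙 X)) p with hb
  obtain ⟨g, hg, hge, hgu⟩ := h.lift (X.prod X) (2 * m) (a - c • b) (by
      have h1 := C.mul_mem (C.pull_mem (fst (X.prod X) X) (C.pull_mem (fst X X) h.τ_mem))
        (C.pull_mem (prodMap (snd X X) (𝟙 X)) hφ)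
      have h2 := C.mul_mem (C.pull_mem (fst (X.prod X) X) (C.pull_mem (snd X X) h.τ_mem))
        (C.pull_mem (prodMap (fst X X) (𝟙 X)) h.p_mem)
      have h3 : (X.dim : ℤ) - m + X.dim = (X.prod X).dim + (m - 2 * m) := by
        rw [dim_prod]; push_cast; ring
      rw [h3] at h1 h2
      exact Submodule.sub_mem _ h1 (Submodule.smul_mem _ _ h2)) (by
      rw [sub_comp, smul_comp', ha, hb, mul_comp_left, mul_comp_left, pull_comp_left,
        pull_comp_left, hφp, h.p_idem]) (by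
      rw [ctr_sub, ctr_smul', ha, hb, ctr_mul, ctr_mul, ctr_pull, ctr_pull, hφτ, h.ctr_p, map_smul,
        mul_smul_comm, mul_comm (C.pull (snd X X) τ), sub_self])
  set v : C.A ((X.prod Z).prod Z) := C.comp (ax C X u) g with hv
  set v' : C.A ((X.prod Z).prod Z) := C.pull (fst (X.prod Z) Z) (C.pull (fst X Z) τ) *
    C.pull (prodMap (snd X Z) (𝟙 Z)) ψ with hv'
  have hvv : v = v' := by
    rw [← sub_eq_zero]
    refine h.mono (X.prod Z) (n + m) (v - v') ?_ ?_ ?_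
    · have h1 := C.comp_mem (l := (X.prod Z).dim + (n - (n + m))) (ax_mem h.u_mem X) hg (by
        simp only [dim_prod]; push_cast; ring)
      have h2 := C.mul_mem (C.pull_mem (fst (X.prod Z) Z) (C.pull_mem (fst X Z) h.τ_mem))
        (C.pull_mem (prodMap (snd X Z) (𝟙 Z)) hψ)
      have h3 : (X.dim : ℤ) - m + Z.dim = (X.prod Z).dim + (n - (n + m)) := by
        rw [dim_prod]; push_cast; ring
      rw [h3] at h2
      exact Submodule.sub_mem _ h1 h2
    · rw [sub_comp, hv, hv', comp_assoc, hge, mul_comp_left, pull_comp_left, hψe]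
    · rw [sub_comp, hv, hv', comp_assoc, hgu, comp_sub', comp_smul', ha, hb, comp_ax_one,
        comp_ax_two, h.ctr_u, map_zero, map_zero, zero_mul, smul_zero, sub_zero, mul_comp_left,
        pull_comp_left, hc, sub_self]
  have h1 : ptr C v = (tr C φ - c) • τ := by
    rw [hv, ptr_ax, ← ptr_comp, hgu, ptr_sub, ptr_smul, ha, hb, ptr_one, ptr_two, h.ctr_p,
      sub_smul]
  have h2 : ptr C v = tr C ψ • τ := by
    rw [hvv, hv', ptr_one]
  have h3 : (tr C ψ - (tr C φ - c)) • τ = 0 := by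
    rw [sub_smul, ← h1, ← h2, sub_self]
  rcases smul_eq_zero.1 h3 with h4 | h4
  · linarith
  · exact absurd h4 hτ

/-! ### Transposition -/

variable (C)

/-- The transpose of a correspondence. -/
noncomputable def tp (a : C.A (X.prod Y)) : C.A (Y.prod X) := C.pull (sw Y X) a

variable {C}

lemma tp_tp (a : C.A (X.prod Y)) : tp C (tp C a) = a := by
  rw [tp, tp, ← C.pull_comp, sw_sw, C.pull_id]

omit hC in
lemma tp_sub (a b : C.A (X.prod Y)) : tp C (a - b) = tp C a - tp C b := by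
  rw [tp, map_sub]; rfl

omit hC in
lemma tp_add (a b : C.A (X.prod Y)) : tp C (a + b) = tp C a + tp C b := by
  rw [tp, map_add]; rfl

omit hC in
lemma tp_smul (c : ℚ) (a : C.A (X.prod Y)) : tp C (c • a) = c • tp C a := by
  rw [tp, map_smul]; rfl

omit hC in
lemma tp_zero : tp C (0 : C.A (X.prod Y)) = 0 := by
  rw [tp, map_zero]

lemma tp_inj {a b : C.A (X.prod Y)} (h : tp C a = tp C b) : a = b := by
  rw [← tp_tp a, h, tp_tp]

lemma tp_mem {a : C.A (X.prod Y)} {i : ℤ} (ha : a ∈ C.gr _ i) : tp C a ∈ C.gr _ i :=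
  C.pull_mem _ ha

lemma tp_comp (a : C.A (X.prod Y)) (b : C.A (Y.prod Z)) :
    tp C (C.comp a b) = C.comp (tp C b) (tp C a) := by
  have f1 : Obj.lift (Obj.lift (snd (X.prod Y) Z) (fst (X.prod Y) Z ≫ snd X Y))
      (fst (X.prod Y) Z ≫ fst X Y) ≫
      Obj.lift (Obj.lift (snd (Z.prod Y) X) (fst (Z.prod Y) X ≫ snd Z Y))
      (fst (Z.prod Y) X ≫ fst Z Y) = 𝟙 _ := by
    apply prod_ext
    · apply prod_ext <;> simp [comp_lift]
    · simp [comp_lift]
  have f2 : Obj.lift (Obj.lift (snd (Z.prod Y) X) (fst (Z.prod Y) X ≫ snd Z Y))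
      (fst (Z.prod Y) X ≫ fst Z Y) ≫ Obj.lift (Obj.lift (snd (X.prod Y) Z)
      (fst (X.prod Y) Z ≫ snd X Y)) (fst (X.prod Y) Z ≫ fst X Y) = 𝟙 _ := by
    apply prod_ext
    · apply prod_ext <;> simp [comp_lift]
    · simp [comp_lift]
  set f : (X.prod Y).prod Z ⟶ (Z.prod Y).prod X := Obj.lift (Obj.lift (snd (X.prod Y) Z)
    (fst (X.prod Y) Z ≫ snd X Y)) (fst (X.prod Y) Z ≫ fst X Y) with hf
  have g1 : t13 X Y Z ≫ sw X Z = f ≫ t13 Z Y X := by
    apply prod_ext <;> simp [sw, comp_lift, hf]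
  have g2 : (f ≫ t23 Z Y X) ≫ sw Y X = fst (X.prod Y) Z := by
    apply prod_ext <;> simp [sw, comp_lift, hf]
  have g3 : (f ≫ fst (Z.prod Y) X) ≫ sw Z Y = t23 X Y Z := by
    apply prod_ext <;> simp [sw, comp_lift, hf]
  have h2 : C.pull f (C.pull (t23 Z Y X) (tp C a)) = C.pull (fst (X.prod Y) Z) a := by
    rw [tp, ← C.pull_comp, ← C.pull_comp, g2]
  have h3 : C.pull f (C.pull (fst (Z.prod Y) X) (tp C b)) = C.pull (t23 X Y Z) b := by
    rw [tp, ← C.pull_comp, ← C.pull_comp, g3]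
  rw [tp, C.pull_iso (sw Z X) (sw X Z) sw_sw sw_sw, C.comp_def a b, ← C.push_comp, g1,
    C.comp_def (tp C b) (tp C a), C.push_model _ _ f1 f2, map_mul (C.pull f), h2, h3, mul_comm]

lemma tr_tp (f : C.A (X.prod X)) : tr C (tp C f) = tr C f := by
  rw [tr, tp, ← C.pull_comp]
  have e1 : Obj.lift (𝟙 X) (𝟙 X) ≫ sw X X = Obj.lift (𝟙 X) (𝟙 X) := by
    apply prod_ext <;> simp [sw, comp_lift]
  rw [e1]
  rfl

end Pool.Agent.Y99.AB
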