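import Pool.Agent.Y108.Mo.Alg

/-!
# Traces of correspondences, and the trace on the kernel of a morphism to the unit
-/

set_option autoImplicit false
set_option linter.unusedSimpArgs false

open CategoryTheory AlgebraicGeometry

universe u v

namespace Pool.Agent.Y99.AB

open Pool.Agent.Y108.Mo SmClass SmClass.Obj CycleTheory

variable {k : Type u} [Field k] {𝒱 : SmClass k}
variable (C : CycleTheory.{u, v} 𝒱) [hC : IsCycleTheory C] {T T' V W X Y Z : 𝒱.Obj}

/-! ### The degree -/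

lemma exists_dg (w : C.A Z) : ∃ q : ℚ, C.push (Obj.toPoint Z) w = q • (1 : C.A (point 𝒱)) :=
  hC.point_span _

/-- The degree of a class. -/
noncomputable def dg (w : C.A Z) : ℚ := Classical.choose (exists_dg C w)

lemma dg_spec (w : C.A Z) : C.push (Obj.toPoint Z) w = dg C w • (1 : C.A (point 𝒱)) :=
  Classical.choose_spec (exists_dg C w)

lemma smul_one_inj {q q' : ℚ} (h : q • (1 : C.A (point 𝒱)) = q' • (1 : C.A (point 𝒱))) :
    q = q' := by
  have h1 : (1 : C.A (point 𝒱)) ≠ 0 := hC.one_ne_zero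
  have h2 : (q - q') • (1 : C.A (point 𝒱)) = 0 := by rw [sub_smul, h, sub_self]
  rcases smul_eq_zero.1 h2 with h3 | h3
  · linarith
  · exact absurd h3 h1

lemma dg_unique {w : C.A Z} {q : ℚ} (h : C.push (Obj.toPoint Z) w = q • (1 : C.A (point 𝒱))) :
    dg C w = q := smul_one_inj C ((dg_spec C w).symm.trans h)

lemma dg_add (w w' : C.A Z) : dg C (w + w') = dg C w + dg C w' := by
  apply dg_unique
  rw [map_add, dg_spec, dg_spec, add_smul]

lemma dg_smul (c : ℚ) (w : C.A Z) : dg C (c • w) = c * dg C w := by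
  apply dg_unique
  rw [map_smul, dg_spec, smul_smul]

lemma dg_zero : dg C (0 : C.A Z) = 0 := by
  apply dg_unique
  rw [map_zero, zero_smul]

lemma dg_neg (w : C.A Z) : dg C (-w) = - dg C w := by
  rw [← neg_one_smul ℚ w, dg_smul]; ring

lemma dg_sub (w w' : C.A Z) : dg C (w - w') = dg C w - dg C w' := by
  rw [sub_eq_add_neg, dg_add, dg_neg, sub_eq_add_neg]

lemma dg_push (f : X ⟶ Y) (w : C.A X) : dg C (C.push f w) = dg C w := by
  apply dg_unique
  rw [← C.push_comp, ← dg_spec, toPoint_ext (f ≫ Obj.toPoint Y) (Obj.toPoint X)]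

lemma push_snd_dg (w : C.A Z) : C.push (fst T Z) (C.pull (snd T Z) w) = dg C w • (1 : C.A T) := by
  have e1 : fst T Z = prodMap (𝟙 T) (Obj.toPoint Z) ≫ fst T (point 𝒱) := by simp
  rw [e1, C.push_comp, ← C.base_snd, dg_spec, map_smul, map_smul, map_one, push_fst_point_one]

lemma push_mul_dg (a : C.A T) (w : C.A Z) :
    C.push (fst T Z) (C.pull (fst T Z) a * C.pull (snd T Z) w) = dg C w • a := by
  rw [C.proj_left, push_snd_dg, mul_smul_comm, mul_one]

/-- The trace of a self-correspondence: its intersection number with the diagonal. -/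
noncomputable def tr (f : C.A (X.prod X)) : ℚ := dg C (C.pull (Obj.lift (𝟙 X) (𝟙 X)) f)

lemma tr_add (f g : C.A (X.prod X)) : tr C (f + g) = tr C f + tr C g := by
  rw [tr, map_add, dg_add]; rfl

lemma tr_smul (c : ℚ) (f : C.A (X.prod X)) : tr C (c • f) = c * tr C f := by
  rw [tr, map_smul, dg_smul]; rfl

lemma tr_zero : tr C (0 : C.A (X.prod X)) = 0 := by
  rw [tr, map_zero, dg_zero]

/-! ### Sections -/

/-- Restriction to the graph of `s`. -/
lemma pull_section (s : T ⟶ Z) (b : C.A (T.prod Z)) :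
    C.pull (Obj.lift (𝟙 T) s) b =
      C.push (fst T Z) (b * C.pull (prodMap s (𝟙 Z)) (C.diag Z)) := by
  rw [← C.gph_comp, C.comp_diag, gph]
  have h1 := C.proj_left (Obj.lift (𝟙 T) s) 1 b
  rw [mul_one] at h1
  rw [← h1, ← C.push_comp, lift_fst, C.push_id]

/-! ### Partial composition -/

/-- `((t, z), y) ↦ ((t, z), (t, y))`. -/
noncomputable def jj (T Z X : 𝒱.Obj) : (T.prod Z).prod X ⟶ (T.prod Z).prod (T.prod X) :=
  Obj.lift (fst (T.prod Z) X) (Obj.lift (fst (T.prod Z) X ≫ fst T Z) (snd (T.prod Z) X))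

/-- `((t, z), y) ↦ (t, y)`. -/
noncomputable def ga (T Z X : 𝒱.Obj) : (T.prod Z).prod X ⟶ T.prod X :=
  Obj.lift (fst (T.prod Z) X ≫ fst T Z) (snd (T.prod Z) X)

/-- The correspondence `id × u` from `T × Z` to `T × X`. -/
noncomputable def ax (T : 𝒱.Obj) (u : C.A (Z.prod X)) : C.A ((T.prod Z).prod (T.prod X)) :=
  C.push (jj T Z X) (C.pull (prodMap (snd T Z) (𝟙 X)) u)

lemma comp_ax (u : C.A (Z.prod X)) (g : C.A ((T.prod X).prod W)) :
    C.comp (ax C T u) g = C.push (t13 (T.prod Z) X W)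
      (C.pull (fst ((T.prod Z).prod X) W) (C.pull (prodMap (snd T Z) (𝟙 X)) u) *
        C.pull (prodMap (ga T Z X) (𝟙 W)) g) := by
  rw [C.comp_def, ax, C.base_fst, ← C.proj_right, ← C.push_comp, ← C.pull_comp (prodMap _ _)]
  have e1 : prodMap (jj T Z X) (𝟙 W) ≫ t13 (T.prod Z) (T.prod X) W = t13 (T.prod Z) X W := by
    apply prod_ext <;> simp [t13, jj]
  have e2 : prodMap (jj T Z X) (𝟙 W) ≫ t23 (T.prod Z) (T.prod X) W = prodMap (ga T Z X) (𝟙 W) := by
    apply prod_ext <;> simp [t23, jj, ga]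
  rw [e1, e2]

/-- `u` composed with `τ(t) φ(y, x)`. -/
lemma comp_ax_one (u : C.A (Z.prod X)) (a : C.A T) (φ : C.A (X.prod W)) :
    C.comp (ax C T u) (C.pull (fst (T.prod X) W) (C.pull (fst T X) a) *
        C.pull (prodMap (snd T X) (𝟙 W)) φ) =
      C.pull (fst (T.prod Z) W) (C.pull (fst T Z) a) *
        C.pull (prodMap (snd T Z) (𝟙 W)) (C.comp u φ) := by
  have e1 : prodMap (ga T Z X) (𝟙 W) ≫ fst (T.prod X) W ≫ fst T X =
      t13 (T.prod Z) X W ≫ fst (T.prod Z) W ≫ fst T Z := by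
    simp [ga]
  have e2 : prodMap (ga T Z X) (𝟙 W) ≫ prodMap (snd T X) (𝟙 W) = t23 (T.prod Z) X W := by
    apply prod_ext <;> simp [ga, t23]
  have h1 : C.pull (prodMap (ga T Z X) (𝟙 W)) (C.pull (fst (T.prod X) W) (C.pull (fst T X) a)) =
      C.pull (t13 (T.prod Z) X W) (C.pull (fst (T.prod Z) W) (C.pull (fst T Z) a)) := by
    rw [← C.pull_comp, ← C.pull_comp, ← C.pull_comp, ← C.pull_comp, Category.assoc,
      Category.assoc, e1]
  have h2 : C.pull (prodMap (ga T Z X) (𝟙 W)) (C.pull (prodMap (snd T X) (𝟙 W)) φ) =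
      C.pull (t23 (T.prod Z) X W) φ := by
    rw [← C.pull_comp, e2]
  have e3 : C.pull (prodMap (snd T Z) (𝟙 W)) (C.comp u φ) =
      C.push (t13 (T.prod Z) X W) (C.pull (fst ((T.prod Z).prod X) W)
        (C.pull (prodMap (snd T Z) (𝟙 X)) u) * C.pull (t23 (T.prod Z) X W) φ) := by
    rw [← C.pull_comp_left]
    rfl
  rw [comp_ax, map_mul (C.pull (prodMap (ga T Z X) (𝟙 W))), h1, h2, e3, mul_left_comm,
    C.proj_left]

/-- `u` composed with `p(t, x) τ(y)`. -/
lemma comp_ax_two (u : C.A (Z.prod X)) (τ : C.A X) (p : C.A (T.prod W)) :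
    C.comp (ax C T u) (C.pull (fst (T.prod X) W) (C.pull (snd T X) τ) *
        C.pull (prodMap (fst T X) (𝟙 W)) p) =
      C.pull (fst (T.prod Z) W) (C.pull (snd T Z) (C.ctr τ u)) *
        C.pull (prodMap (fst T Z) (𝟙 W)) p := by
  have e1 : prodMap (ga T Z X) (𝟙 W) ≫ fst (T.prod X) W ≫ snd T X =
      fst ((T.prod Z).prod X) W ≫ snd (T.prod Z) X := by
    simp [ga]
  have e2 : prodMap (ga T Z X) (𝟙 W) ≫ prodMap (fst T X) (𝟙 W) =
      t13 (T.prod Z) X W ≫ prodMap (fst T Z) (𝟙 W) := by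
    apply prod_ext <;> simp [ga, t13]
  have h1 : C.pull (prodMap (ga T Z X) (𝟙 W)) (C.pull (fst (T.prod X) W) (C.pull (snd T X) τ)) =
      C.pull (fst ((T.prod Z).prod X) W) (C.pull (snd (T.prod Z) X) τ) := by
    rw [← C.pull_comp, ← C.pull_comp, ← C.pull_comp, Category.assoc, e1]
  have h2 : C.pull (prodMap (ga T Z X) (𝟙 W)) (C.pull (prodMap (fst T X) (𝟙 W)) p) =
      C.pull (t13 (T.prod Z) X W) (C.pull (prodMap (fst T Z) (𝟙 W)) p) := by
    rw [← C.pull_comp, ← C.pull_comp, e2]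
  have e3 : C.pull (fst (T.prod Z) W) (C.pull (snd T Z) (C.ctr τ u)) =
      C.push (t13 (T.prod Z) X W) (C.pull (fst ((T.prod Z).prod X) W)
        (C.pull (prodMap (snd T Z) (𝟙 X)) u * C.pull (snd (T.prod Z) X) τ)) := by
    rw [← C.ctr_pull, ctr, C.base_fst]
    rfl
  rw [comp_ax, map_mul (C.pull (prodMap (ga T Z X) (𝟙 W))), h1, h2, e3, ← mul_assoc,
    C.proj_right, map_mul (C.pull (fst ((T.prod Z).prod X) W))]

/-! ### The partial trace -/

/-- The partial trace. -/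
noncomputable def ptr (f : C.A ((T.prod Z).prod Z)) : C.A T :=
  C.push (fst T Z) (C.pull (Obj.lift (𝟙 (T.prod Z)) (snd T Z)) f)

omit hC in
lemma ptr_sub (f g : C.A ((T.prod Z).prod Z)) : ptr C (f - g) = ptr C f - ptr C g := by
  rw [ptr, map_sub, map_sub]; rfl

omit hC in
lemma ptr_smul (c : ℚ) (f : C.A ((T.prod Z).prod Z)) : ptr C (c • f) = c • ptr C f := by
  rw [ptr, map_smul, map_smul]; rfl

/-- The partial trace of `τ(t) φ(y, x)`. -/
lemma ptr_one (a : C.A T) (φ : C.A (Z.prod Z)) :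
    ptr C (C.pull (fst (T.prod Z) Z) (C.pull (fst T Z) a) *
        C.pull (prodMap (snd T Z) (𝟙 Z)) φ) = tr C φ • a := by
  have e1 : Obj.lift (𝟙 (T.prod Z)) (snd T Z) ≫ fst (T.prod Z) Z ≫ fst T Z = fst T Z := by
    simp
  have e2 : Obj.lift (𝟙 (T.prod Z)) (snd T Z) ≫ prodMap (snd T Z) (𝟙 Z) =
      snd T Z ≫ Obj.lift (𝟙 Z) (𝟙 Z) := by
    apply prod_ext <;> simp [comp_lift]
  have h1 : C.pull (Obj.lift (𝟙 (T.prod Z)) (snd T Z)) (C.pull (fst (T.prod Z) Z)
      (C.pull (fst T Z) a)) = C.pull (fst T Z) a := by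
    rw [← C.pull_comp, ← C.pull_comp, Category.assoc, e1]
  have h2 : C.pull (Obj.lift (𝟙 (T.prod Z)) (snd T Z)) (C.pull (prodMap (snd T Z) (𝟙 Z)) φ) =
      C.pull (snd T Z) (C.pull (Obj.lift (𝟙 Z) (𝟙 Z)) φ) := by
    rw [← C.pull_comp, ← C.pull_comp, e2]
  rw [ptr, map_mul (C.pull (Obj.lift (𝟙 (T.prod Z)) (snd T Z))), h1, h2, push_mul_dg]
  rfl

/-- The partial trace of `p(t, x) τ(y)`. -/
lemma ptr_two (τ : C.A Z) (p : C.A (T.prod Z)) :
    ptr C (C.pull (fst (T.prod Z) Z) (C.pull (snd T Z) τ) *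
        C.pull (prodMap (fst T Z) (𝟙 Z)) p) = C.ctr τ p := by
  have e1 : Obj.lift (𝟙 (T.prod Z)) (snd T Z) ≫ fst (T.prod Z) Z ≫ snd T Z = snd T Z := by
    simp
  have e2 : Obj.lift (𝟙 (T.prod Z)) (snd T Z) ≫ prodMap (fst T Z) (𝟙 Z) = 𝟙 _ := by
    apply prod_ext <;> simp [comp_lift]
  have h1 : C.pull (Obj.lift (𝟙 (T.prod Z)) (snd T Z)) (C.pull (fst (T.prod Z) Z)
      (C.pull (snd T Z) τ)) = C.pull (snd T Z) τ := by
    rw [← C.pull_comp, ← C.pull_comp, Category.assoc, e1]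
  have h2 : C.pull (Obj.lift (𝟙 (T.prod Z)) (snd T Z)) (C.pull (prodMap (fst T Z) (𝟙 Z)) p) =
      p := by
    rw [← C.pull_comp, e2, C.pull_id]
  rw [ptr, map_mul (C.pull (Obj.lift (𝟙 (T.prod Z)) (snd T Z))), h1, h2, mul_comm]
  rfl

/-- The integral of `g((t, y), z) u(z, y)` over `y`, `z`. -/
noncomputable def ii (g : C.A ((T.prod X).prod Z)) (u : C.A (Z.prod X)) : C.A T :=
  C.push (fst (T.prod X) Z ≫ fst T X) (g *
    C.pull (Obj.lift (snd (T.prod X) Z) (fst (T.prod X) Z ≫ snd T X)) u)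

/-- The partial trace of `g` followed by `u`. -/
lemma ptr_comp (g : C.A ((T.prod X).prod Z)) (u : C.A (Z.prod X)) :
    ptr C (C.comp g u) = ii C g u := by
  have e0 : C.pull (Obj.lift (𝟙 (T.prod X)) (snd T X)) (C.comp g u) =
      C.push (fst (T.prod X) Z) (g *
        C.pull (Obj.lift (snd (T.prod X) Z) (fst (T.prod X) Z ≫ snd T X)) u) := by
    rw [pull_section, C.comp_def, ← C.proj_right, ← C.push_comp]
    have e1 : t13 (T.prod X) Z X ≫ fst (T.prod X) X =
        fst ((T.prod X).prod Z) X ≫ fst (T.prod X) Z := by simp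
    have h1 : C.pull (t13 (T.prod X) Z X) (C.pull (prodMap (snd T X) (𝟙 X)) (C.diag X)) =
        C.pull (prodMap (fst (T.prod X) Z ≫ snd T X) (𝟙 X)) (C.diag X) := by
      rw [← C.pull_comp]
      congr 2
      apply prod_ext <;> simp [t13]
    rw [e1, h1, C.push_comp, ← pull_section, map_mul (C.pull (Obj.lift _ _))]
    congr 2
    · rw [← C.pull_comp, lift_fst, C.pull_id]
    · rw [← C.pull_comp]
      congr 2
      apply prod_ext <;> simp [t23, comp_lift]
  rw [ptr, e0, ← C.push_comp]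
  rfl

/-- The partial trace of `u` followed by `g`. -/
lemma ptr_ax (g : C.A ((T.prod X).prod Z)) (u : C.A (Z.prod X)) :
    ptr C (C.comp (ax C T u) g) = ii C g u := by
  -- restriction to `z = z'`
  have e0 : C.pull (Obj.lift (𝟙 (T.prod Z)) (snd T Z)) (C.comp (ax C T u) g) =
      C.push (fst (T.prod Z) X) (C.pull (prodMap (snd T Z) (𝟙 X)) u *
        C.pull (Obj.lift (ga T Z X) (fst (T.prod Z) X ≫ snd T Z)) g) := by
    rw [pull_section, comp_ax, ← C.proj_right, ← C.push_comp]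
    have e1 : t13 (T.prod Z) X Z ≫ fst (T.prod Z) Z =
        fst ((T.prod Z).prod X) Z ≫ fst (T.prod Z) X := by simp
    have h1 : C.pull (t13 (T.prod Z) X Z) (C.pull (prodMap (snd T Z) (𝟙 Z)) (C.diag Z)) =
        C.pull (prodMap (fst (T.prod Z) X ≫ snd T Z) (𝟙 Z)) (C.diag Z) := by
      rw [← C.pull_comp]
      congr 2
      apply prod_ext <;> simp [t13]
    rw [e1, h1, C.push_comp, ← pull_section, map_mul (C.pull (Obj.lift _ _))]
    congr 2
    · rw [← C.pull_comp, lift_fst, C.pull_id]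
    · rw [← C.pull_comp]
      congr 2
      apply prod_ext <;> simp [ga, comp_lift]
  have f1 : Obj.lift (ga T Z X) (fst (T.prod Z) X ≫ snd T Z) ≫
      Obj.lift (Obj.lift (fst (T.prod X) Z ≫ fst T X) (snd (T.prod X) Z))
        (fst (T.prod X) Z ≫ snd T X) = 𝟙 _ := by
    apply prod_ext
    · apply prod_ext <;> simp [ga, comp_lift]
    · simp [ga, comp_lift]
  have f2 : Obj.lift (Obj.lift (fst (T.prod X) Z ≫ fst T X) (snd (T.prod X) Z))
        (fst (T.prod X) Z ≫ snd T X) ≫ Obj.lift (ga T Z X) (fst (T.prod Z) X ≫ snd T Z) =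
      𝟙 _ := by
    apply prod_ext
    · apply prod_ext <;> simp [ga, comp_lift]
    · simp [ga, comp_lift]
  rw [ptr, e0, ← C.push_comp, C.push_model _ _ f2 f1, map_mul (C.pull (Obj.lift (Obj.lift _ _) _)),
    ← C.pull_comp, ← C.pull_comp, f2, C.pull_id, mul_comm, ii]
  have g1 : Obj.lift (Obj.lift (fst (T.prod X) Z ≫ fst T X) (snd (T.prod X) Z))
      (fst (T.prod X) Z ≫ snd T X) ≫ prodMap (snd T Z) (𝟙 X) =
      Obj.lift (snd (T.prod X) Z) (fst (T.prod X) Z ≫ snd T X) := by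
    apply prod_ext <;> simp [comp_lift]
  have g2 : Obj.lift (Obj.lift (fst (T.prod X) Z ≫ fst T X) (snd (T.prod X) Z))
      (fst (T.prod X) Z ≫ snd T X) ≫ fst (T.prod Z) X ≫ fst T Z =
      fst (T.prod X) Z ≫ fst T X := by
    simp [comp_lift]
  rw [g1, g2]

end Pool.Agent.Y99.AB
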